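import Pool.Agent.U753.FE.Gibbs

/-!
# A column of an approximate power with small expectation of an observable
-/

set_option autoImplicit false
set_option linter.unusedSectionVars false

open scoped BigOperators ComplexConjugate Matrix

noncomputable section

namespace Pool.Agent.U753.FE

open Pool.Agent.N658.TP Pool.Agent.TH235 Pool.Agent.TH235.PP Pool.Agent.N134.TP.Col

section col

variable {n : Type} [Fintype n] [DecidableEq n]

lemma qf_smulv (A : Matrix n n ℂ) (c : ℝ) (v : n → ℂ) :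
    qf A ((c : ℂ) • v) = c ^ 2 * qf A v := by
  unfold qf PP.ip
  rw [Matrix.mulVec_smul]
  have : ∑ s, (starRingEnd ℂ) (((c : ℂ) • v) s) * ((c : ℂ) • A *ᵥ v) s =
      ((c ^ 2 : ℝ) : ℂ) * ∑ s, (starRingEnd ℂ) (v s) * (A *ᵥ v) s := by
    rw [Finset.mul_sum]
    refine Finset.sum_congr rfl fun s _ => ?_
    simp only [Pi.smul_apply, smul_eq_mul, map_mul, Complex.conj_ofReal]
    push_cast
    ring
  rw [this, Complex.re_ofReal_mul]

lemma tr_conj (U : Matrix n n ℂ) (hU : Uᴴ * U = 1) (a : n → ℝ) (B : Matrix n n ℂ) :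
    ((U * Matrix.diagonal (fun j => ((a j : ℝ) : ℂ)) * Uᴴ) * B *
      (U * Matrix.diagonal (fun j => ((a j : ℝ) : ℂ)) * Uᴴ)).trace.re =
      ∑ j, a j ^ 2 * qf B (fun s => U s j) := by
  obtain ⟨D, hD⟩ : ∃ D : Matrix n n ℂ, D = Matrix.diagonal (fun j => ((a j : ℝ) : ℂ)) := ⟨_, rfl⟩
  rw [← hD]
  have hDh : Dᴴ = D := by
    rw [hD, Matrix.diagonal_conjTranspose]
    congr 1
    funext i
    simp
  have e1 : ((U * D * Uᴴ) * B * (U * D * Uᴴ)).trace = ((U * D)ᴴ * B * (U * D)).trace := by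
    have : (U * D * Uᴴ) * B * (U * D * Uᴴ) = U * (D * Uᴴ * B * (U * D * Uᴴ)) := by
      simp only [mul_assoc]
    rw [this, Matrix.trace_mul_comm, Matrix.conjTranspose_mul, hDh]
    congr 1
    simp only [mul_assoc, hU, mul_one]
  rw [e1, ← sum_ip, Complex.re_sum]
  refine Finset.sum_congr rfl fun j _ => ?_
  have e2 : (fun s => (U * D) s j) = ((a j : ℝ) : ℂ) • fun s => U s j := by
    funext s
    rw [hD, Matrix.mul_diagonal, Pi.smul_apply, smul_eq_mul, mul_comm]
  rw [e2]
  exact qf_smulv B (a j) _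

lemma qf_abs (B : Matrix n n ℂ) (v : n → ℂ) (hv : normSq v = 1) :
    open scoped Matrix.Norms.L2Operator in |qf B v| ≤ ‖B‖ := by
  have h1 : nr v = 1 := by
    have := nr_sq v
    rw [hv] at this
    exact (pow_eq_one_iff_of_nonneg (nr_nonneg v) two_ne_zero).1 this
  have h2 := (Complex.abs_re_le_norm _).trans (ip_le v (B *ᵥ v))
  have h3 := nr_mulVec B v
  rw [h1, mul_one] at h3
  rw [h1, one_mul] at h2
  exact h2.trans h3

open scoped Matrix.Norms.L2Operator in
theorem colK [Nonempty n] (U : Matrix n n ℂ) (hU : Uᴴ * U = 1) (hU' : U * Uᴴ = 1) (lam : n → ℝ)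
    (A Kob : Matrix n n ℂ) (κ : ℝ)
    (hdec : (1 : Matrix n n ℂ) - (κ : ℂ) • A =
      U * Matrix.diagonal (fun j => ((1 - κ * lam j : ℝ) : ℂ)) * Uᴴ)
    (hl : ∀ j, 0 < 1 - κ * lam j) (B0 δ : ℝ) (M : ℕ) (K0 : Matrix n n ℂ)
    (hB0 : ‖Kob‖ ≤ B0) (hδ0 : 0 ≤ δ) (hδ1 : δ ≤ 1 / 2)
    (hfr : fr2 (K0 - (1 - (κ : ℂ) • A) ^ M) ≤ δ ^ 2 * ∑ j, (1 - κ * lam j) ^ (2 * M))
    (E : ℝ) (hE : ∑ j, (1 - κ * lam j) ^ (2 * M) * qf Kob (fun s => U s j) =
      E * ∑ j, (1 - κ * lam j) ^ (2 * M)) :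
    ∃ t : n, 0 < normSq (fun s => K0 s t) ∧
      (ip (fun s => K0 s t) (Kob *ᵥ fun s => K0 s t)).re ≤
        (E + 24 * B0 * δ) * normSq (fun s => K0 s t) := by
  set l : n → ℝ := fun j => 1 - κ * lam j with hldef
  have hl' : ∀ j, 0 < l j := hl
  set S : ℝ := ∑ j, l j ^ (2 * M) with hS
  have hS0 : 0 < S := Finset.sum_pos (fun j _ => pow_pos (hl' j) _) Finset.univ_nonempty
  have hB : 0 ≤ B0 := (norm_nonneg Kob).trans hB0
  -- `|E| ≤ B0`
  have hEB : |E| ≤ B0 := by
    have h1 : |E * S| ≤ B0 * S := by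
      rw [← hE]
      refine (Finset.abs_sum_le_sum_abs _ _).trans ?_
      rw [hS, Finset.mul_sum]
      refine Finset.sum_le_sum fun j _ => ?_
      rw [abs_mul, abs_of_pos (pow_pos (hl' j) _), mul_comm]
      exact mul_le_mul_of_nonneg_right ((qf_abs Kob _ (col_unit U hU j)).trans hB0)
        (pow_pos (hl' j) _).le
    rw [abs_mul, abs_of_pos hS0] at h1
    exact le_of_mul_le_mul_right h1 hS0
  set P : Matrix n n ℂ := (1 - (κ : ℂ) • A) ^ M with hP
  have hPd : P = U * Matrix.diagonal (fun j => ((l j ^ M : ℝ) : ℂ)) * Uᴴ := by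
    rw [hP, hdec]
    exact diag_pow U hU hU' l M
  have hPh : Pᴴ = P := by
    rw [hPd]
    exact dia_herm U _
  -- the traces
  have hfrP : fr2 P = S := by
    have h1 := fr2_trace P
    rw [hPh, hPd, dia_mul U hU, trace_diag U hU, ← hPd] at h1
    have h2 := Complex.ofReal_injective h1
    rw [← h2, hS]
    refine Finset.sum_congr rfl fun j _ => ?_
    rw [← pow_add]
    congr 1
    ring
  have htr : ∑ t, (ip (fun s => P s t) (Kob *ᵥ fun s => P s t)).re = E * S := by
    rw [← Complex.re_sum, sum_ip, hPh, ← hE]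
    have h1 := tr_conj U hU (fun j => l j ^ M) Kob
    rw [← hPd] at h1
    rw [h1]
    refine Finset.sum_congr rfl fun j _ => ?_
    rw [← pow_mul, mul_comm M 2]
  set H : Matrix n n ℂ := Kob - (E : ℂ) • 1 with hH
  have hHn : ‖H‖ ≤ 2 * B0 := by
    rw [hH]
    refine (norm_sub_le _ _).trans ?_
    rw [norm_smul, Complex.norm_real, Real.norm_eq_abs]
    have h1 : ‖(1 : Matrix n n ℂ)‖ = 1 := norm_one
    rw [h1, mul_one]
    linarith
  set D : Matrix n n ℂ := K0 - P with hD
  have hcol : ∀ t, (fun s => K0 s t) = (fun s => P s t) + fun s => D s t := by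
    intro t
    funext s
    rw [Pi.add_apply, hD, Matrix.sub_apply]
    ring
  -- sums of squares
  have hDsum : ∑ t, nr (fun s => D s t) ^ 2 ≤ δ ^ 2 * S := by
    have h1 : ∑ t, nr (fun s => D s t) ^ 2 = fr2 D := by
      rw [← sum_normSq]
      exact Finset.sum_congr rfl fun t _ => nr_sq _
    rw [h1]
    exact hfr
  have hPsum : ∑ t, nr (fun s => P s t) ^ 2 = S := by
    rw [← hfrP, ← sum_normSq]
    exact Finset.sum_congr rfl fun t _ => nr_sq _
  have hCS : ∑ t, nr (fun s => D s t) * nr (fun s => P s t) ≤ δ * S := by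
    have h1 := Real.sum_mul_le_sqrt_mul_sqrt Finset.univ (fun t => nr (fun s => D s t))
      (fun t => nr (fun s => P s t))
    refine h1.trans ?_
    rw [hPsum]
    have h2 : Real.sqrt (∑ t, nr (fun s => D s t) ^ 2) ≤ δ * Real.sqrt S := by
      rw [← Real.sqrt_sq hδ0, ← Real.sqrt_mul (sq_nonneg δ)]
      exact Real.sqrt_le_sqrt hDsum
    calc _ ≤ δ * Real.sqrt S * Real.sqrt S := mul_le_mul_of_nonneg_right h2 (Real.sqrt_nonneg _)
      _ = δ * S := by rw [mul_assoc, Real.mul_self_sqrt hS0.le]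
  -- the total norm
  have hK : S / 4 ≤ fr2 K0 := by
    have h1 : fr P ≤ fr K0 + fr D := by
      have h2 : P = K0 + -D := by rw [hD]; abel
      have h3 := fr_add K0 (-D)
      rw [fr_neg, ← h2] at h3
      exact h3
    have h4 : fr P = Real.sqrt S := by
      rw [← hfrP, ← fr_sq, Real.sqrt_sq (fr_nonneg _)]
    have h5 : fr D ≤ δ * Real.sqrt S := by
      rw [← Real.sqrt_sq hδ0, ← Real.sqrt_mul (sq_nonneg δ), ← Real.sqrt_sq (fr_nonneg D), fr_sq]
      exact Real.sqrt_le_sqrt hfr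
    have h6 : Real.sqrt S / 2 ≤ fr K0 := by
      have h7 := Real.sqrt_nonneg S
      nlinarith [h1, h4, h5, h7]
    have h8 := pow_le_pow_left₀ (by positivity) h6 2
    rw [fr_sq, div_pow, Real.sq_sqrt hS0.le] at h8
    linarith
  -- the total energy
  have hEn : ∑ t, (ip (fun s => K0 s t) (H *ᵥ fun s => K0 s t)).re ≤ S * (5 * B0 * δ) := by
    have h1 : ∀ t, (ip (fun s => K0 s t) (H *ᵥ fun s => K0 s t)).re ≤
        (ip (fun s => P s t) (H *ᵥ fun s => P s t)).re +
          2 * (2 * B0) * (nr (fun s => D s t) * nr (fun s => P s t)) +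
          (2 * B0) * nr (fun s => D s t) ^ 2 := by
      intro t
      rw [hcol t]
      exact q_add H _ hHn _ _
    refine (Finset.sum_le_sum fun t _ => h1 t).trans ?_
    rw [Finset.sum_add_distrib, Finset.sum_add_distrib, ← Finset.mul_sum, ← Finset.mul_sum]
    have h2 : ∑ t, (ip (fun s => P s t) (H *ᵥ fun s => P s t)).re ≤ 0 := by
      rw [hH]
      simp only [q_eq]
      rw [Finset.sum_sub_distrib, htr, ← Finset.mul_sum, sum_normSq, hfrP, sub_self]
    have h4 : 2 * (2 * B0) * ∑ t, nr (fun s => D s t) * nr (fun s => P s t) ≤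
        2 * (2 * B0) * (δ * S) := mul_le_mul_of_nonneg_left hCS (by positivity)
    have h5 : (2 * B0) * ∑ t, nr (fun s => D s t) ^ 2 ≤ (2 * B0) * (δ ^ 2 * S) :=
      mul_le_mul_of_nonneg_left hDsum (by positivity)
    have h6 : (2 * B0) * (δ ^ 2 * S) ≤ B0 * (δ * S) := by
      have h7 : δ ^ 2 ≤ δ / 2 := by nlinarith
      have h8 : δ ^ 2 * S ≤ δ / 2 * S := mul_le_mul_of_nonneg_right h7 hS0.le
      nlinarith [mul_le_mul_of_nonneg_left h8 (by positivity : (0:ℝ) ≤ 2 * B0)]
    linarith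
  -- conclusion
  by_contra hcon
  push Not at hcon
  have hns : ∀ t, 0 ≤ normSq (fun s => K0 s t) := fun t => by
    unfold normSq
    exact Finset.sum_nonneg fun s _ => by positivity
  set c : ℝ := 24 * B0 * δ with hc
  have hc0 : 0 ≤ c := by positivity
  have hle : ∀ t, c * normSq (fun s => K0 s t) ≤
      (ip (fun s => K0 s t) (H *ᵥ fun s => K0 s t)).re := by
    intro t
    rw [hH, q_eq]
    rcases (hns t).lt_or_eq with h0 | h0
    · have := hcon t h0
      rw [hc]
      linarith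
    · have hz : (fun s => K0 s t) = 0 := by
        have h1 : nr (fun s => K0 s t) = 0 := by
          have := nr_sq (fun s => K0 s t)
          rw [← h0] at this
          exact pow_eq_zero_iff (two_ne_zero) |>.1 this
        unfold nr at h1
        have h2 := norm_eq_zero.1 h1
        have h3 := congrArg WithLp.ofLp h2
        exact h3
      rw [hz]
      simp [ip, normSq]
  have hlt : ∃ t ∈ Finset.univ, c * normSq (fun s => K0 s t) <
      (ip (fun s => K0 s t) (H *ᵥ fun s => K0 s t)).re := by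
    have h1 : 0 < ∑ t, normSq (fun s => K0 s t) := by
      rw [sum_normSq]
      linarith
    obtain ⟨t, ht, h2⟩ := Finset.exists_lt_of_sum_lt (s := Finset.univ)
      (f := fun _ : n => (0 : ℝ)) (g := fun t => normSq (fun s => K0 s t)) (by simpa using h1)
    refine ⟨t, ht, ?_⟩
    rw [hH, q_eq]
    have := hcon t h2
    rw [hc]
    linarith
  have h1 := Finset.sum_lt_sum (fun t _ => hle t) hlt
  rw [← Finset.mul_sum, sum_normSq] at h1
  have h2 : c * (S / 4) ≤ c * fr2 K0 := mul_le_mul_of_nonneg_left hK hc0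
  have h3 : c * (S / 4) = S * (6 * B0 * δ) := by rw [hc]; ring
  have h4 : 0 ≤ S * (B0 * δ) := by positivity
  nlinarith [h1, h2, h3, h4, hEn]

end col

end Pool.Agent.U753.FE
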