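import Pool.Agent.TH235.PQ.Ops

/-!
# Interactions on a box as interactions on a larger box
-/

set_option autoImplicit false
set_option linter.unusedSectionVars false

open scoped BigOperators Matrix
open Finset Pool.Agent.TH235.PP

namespace Pool.Agent.U753.FE

variable {d R S L : ℕ}

open Classical in
/-- the operator `h` acting on the corner of a larger box -/
noncomputable def ext (hRS : R ≤ S) (h : BoxOp d R) : BoxOp d S := fun p q =>
  if ∀ x : Fin S × Fin S, ¬ (x.1.val < R ∧ x.2.val < R) → p x = q x then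
    h (fun y => p (Fin.castLE hRS y.1, Fin.castLE hRS y.2))
      (fun y => q (Fin.castLE hRS y.1, Fin.castLE hRS y.2)) else 0

lemma term_ext [NeZero L] (hRS : R ≤ S) (hS : S ≤ L) (h : BoxOp d R) (u : Site L) :
    term (ext hRS h) u = term h u := by
  classical
  have hinj := Pool.Agent.TH235.PQ.sh_inj hS u
  have hsh : ∀ y : Fin R × Fin R, (sh u (Fin.castLE hRS y.1, Fin.castLE hRS y.2) : Site L) =
      sh u y := fun y => rfl
  ext s t
  unfold term
  by_cases hst : ∀ v, (∀ x : Fin R × Fin R, sh u x ≠ v) → s v = t v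
  · rw [if_pos hst, if_pos]
    · unfold ext
      rw [if_pos]
      · simp only [hsh]
      · intro x hx
        refine hst _ fun y hy => hx ?_
        rw [← hsh y] at hy
        have := hinj hy
        rw [← this]
        exact ⟨y.1.2, y.2.2⟩
    · intro v hv
      refine hst v fun y => ?_
      rw [← hsh y]
      exact hv _
  · rw [if_neg hst]
    split_ifs with h1
    · unfold ext
      rw [if_neg]
      intro h2
      apply hst
      intro v hv
      by_cases h3 : ∃ x : Fin S × Fin S, sh u x = v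
      · obtain ⟨x, hx⟩ := h3
        rw [← hx]
        refine h2 x ?_
        rintro ⟨h4, h5⟩
        exact hv (⟨x.1, h4⟩, ⟨x.2, h5⟩) hx
      · push Not at h3
        exact h1 v h3
    · rfl

lemma ham_ext [NeZero L] (hRS : R ≤ S) (hS : S ≤ L) (h : BoxOp d R) :
    ham (ext hRS h) L = ham h L := by
  unfold ham
  exact Finset.sum_congr rfl fun u _ => term_ext hRS hS h u

lemma ext_herm (hRS : R ≤ S) (h : BoxOp d R) (hh : h.IsHermitian) : (ext hRS h).IsHermitian := by
  classical
  refine Matrix.IsHermitian.ext fun p q => ?_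
  unfold ext
  by_cases h1 : ∀ x : Fin S × Fin S, ¬ (x.1.val < R ∧ x.2.val < R) → p x = q x
  · rw [if_pos h1, if_pos (fun x hx => (h1 x hx).symm)]
    exact hh.apply _ _
  · rw [if_neg h1, if_neg (fun h2 => h1 fun x hx => (h2 x hx).symm), star_zero]

lemma nJ_ext (hRS : R ≤ S) (h : BoxOp d R) :
    nJ (ext hRS h) ≤ ((Fintype.card (Fin S × Fin S → Fin d) : ℕ) : ℝ) *
      ((Fintype.card (Fin S × Fin S → Fin d) : ℕ) : ℝ) * nJ h := by
  classical
  have h1 : ∀ p q, ‖ext hRS h p q‖ ≤ nJ h := by
    intro p q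
    unfold ext
    split_ifs
    · unfold nJ
      refine le_trans ?_ (Finset.single_le_sum (f := fun p => ∑ q, ‖h p q‖)
        (fun p _ => Finset.sum_nonneg fun _ _ => norm_nonneg _)
        (mem_univ (fun y : Fin R × Fin R => p (Fin.castLE hRS y.1, Fin.castLE hRS y.2))))
      exact Finset.single_le_sum (f := fun q' => ‖h (fun y : Fin R × Fin R =>
        p (Fin.castLE hRS y.1, Fin.castLE hRS y.2)) q'‖) (fun _ _ => norm_nonneg _) (mem_univ _)
    · rw [norm_zero]
      exact nJ_nonneg h
  have h2 : nJ (ext hRS h) = ∑ p, ∑ q, ‖ext hRS h p q‖ := rfl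
  rw [h2]
  calc ∑ p, ∑ q, ‖ext hRS h p q‖ ≤ ∑ _p : Fin S × Fin S → Fin d, ∑ _q : Fin S × Fin S → Fin d,
        nJ h := Finset.sum_le_sum fun p _ => Finset.sum_le_sum fun q _ => h1 p q
    _ = _ := by
      simp only [Finset.sum_const, Finset.card_univ, nsmul_eq_mul]
      ring

lemma term_add' {R' : ℕ} [NeZero L] (h1 h2 : BoxOp d (R' + 1)) (u : Site L) :
    term (h1 + h2) u = term h1 u + term h2 u := Pool.Agent.TH235.PQ.term_add h1 h2 u

lemma ham_add {R' : ℕ} [NeZero L] (h1 h2 : BoxOp d (R' + 1)) :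
    ham (h1 + h2) L = ham h1 L + ham h2 L := by
  unfold ham
  rw [← Finset.sum_add_distrib]
  exact Finset.sum_congr rfl fun u _ => term_add' h1 h2 u

lemma nJ_add (h1 h2 : BoxOp d R) : nJ (h1 + h2) ≤ nJ h1 + nJ h2 := by
  unfold nJ
  rw [← Finset.sum_add_distrib]
  refine Finset.sum_le_sum fun p _ => ?_
  rw [← Finset.sum_add_distrib]
  exact Finset.sum_le_sum fun q _ => norm_add_le _ _

end Pool.Agent.U753.FE
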