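import Pool.Agent.U753.FE.ReachG
import Pool.Agent.N658.TP.In3

/-!
# Bond dimension in terms of the free energy, with exponent `β + κ / ε + log m`
-/

set_option autoImplicit false

open scoped BigOperators ComplexConjugate Classical InnerProductSpace Matrix ComplexOrder
open scoped Matrix.Norms.L2Operator

noncomputable section

namespace Pool.Agent.U753.FE

open Pool.Agent.Y738.PE Pool.Agent.N658.TP Pool.Agent.N658.TP.A2 Pool.Agent.N395.TP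

/-- Bond dimension in terms of the free energy. -/
def StmFree1G : Prop := ∀ (d R' : ℕ), 2 ≤ d → ∀ h : Pool.Agent.TH235.PP.BoxOp d (R' + 1),
  h.IsHermitian → ∀ R : Finset (ℤ × ℤ), ∃ C : ℝ, 0 < C ∧ ∀ ε : ℝ, 0 < ε → ε ≤ 1 →
  ∀ β : ℝ, 0 ≤ β → ∀ (n : ℕ) [NeZero (2 * n)], C * (1 + β) / ε ≤ ((2 * n : ℕ) : ℝ) →
  ∀ κ : ℝ, 0 ≤ κ → FreeLe h (2 * n) β κ →
  ∃ L₀ : ℕ, ∀ (L : ℕ) [NeZero L], L₀ ≤ L → ∀ Ψ : Conf d L → ℂ,
    IsGround (fun x y : BConf d (R' + 1) => h x y) L Ψ → TransInv Ψ →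
    ∃ (D : ℕ) (A : Tensor d D),
      (D : ℝ) ≤ Real.exp (C * (1 + β + κ / ε + Real.log ((2 * n : ℕ) : ℝ))) ∧
      ∀ (L' : ℕ) [NeZero L'], C * ((2 * n : ℕ) : ℝ) ^ 4 ≤ L' →
        nrm (pepsX A L') ≠ 0 ∧ Close R Ψ (pepsX A L') ε

theorem free1 (hF : StmReachG) (hE : StmEnMul) : StmFree1G := by
  intro d R' hd h hh R
  obtain ⟨r, hr, hreg⟩ := region_of_box d R
  obtain ⟨c, hc1, hfin⟩ := fin_box pipe' d r hd hr
  obtain ⟨C₁, hC₁, hreach⟩ := hF d r R' (Pool.Agent.TH235.PP.nJ h) hd hr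
  have hherm : Herm (fun x y : BConf d (R' + 1) => h x y) := fun σ τ => (hh.apply τ σ).symm
  obtain ⟨C₂, hC₂, hcmp⟩ := energy_cmp hE d (R' + 1) hd (by omega)
    (fun x y : BConf d (R' + 1) => h x y) hherm
  obtain ⟨a, ha⟩ : ∃ a : ℝ, a = 2 * c * (C₁ + 1) := ⟨_, rfl⟩
  have ha0 : 2 ≤ a := by rw [ha]; nlinarith
  obtain ⟨C, hCdef⟩ : ∃ C : ℝ, C = c + 4 * C₁ * (1 + a * (C₂ + 1)) + 4 * C₁ + 4 * C₁ * a + C₁ * a +
    2 * c + r + (R' + 1) := ⟨_, rfl⟩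
  have hr0 : (0 : ℝ) ≤ r := Nat.cast_nonneg r
  have hR0 : (0 : ℝ) ≤ R' := Nat.cast_nonneg R'
  have hc0 : 0 < c := by linarith
  have p1 : 0 ≤ 4 * C₁ * (1 + a * (C₂ + 1)) := by positivity
  have p2 : 0 ≤ 4 * C₁ * a := by positivity
  have p3 : 0 ≤ C₁ * a := by positivity
  have hC1 : 1 ≤ C := by rw [hCdef]; linarith
  refine ⟨C, by linarith, ?_⟩
  intro ε hε hε1 β hβ n _ hm κ hκ hfree
  obtain ⟨φ, hφ, hφ2⟩ := hfree
  have hn0 : 2 * n ≠ 0 := NeZero.ne (2 * n)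
  obtain ⟨m, hmdef⟩ : ∃ m : ℝ, m = ((2 * n : ℕ) : ℝ) := ⟨_, rfl⟩
  have hm1 : 1 ≤ m := by
    rw [hmdef]
    exact_mod_cast Nat.one_le_iff_ne_zero.2 hn0
  rw [← hmdef] at hm
  -- consequences of the lower bound for `m`
  have hmC : C * (1 + β) ≤ m * ε := by rwa [div_le_iff₀ hε] at hm
  have hmC2 : C ≤ m := by nlinarith
  have hqm : R' + 1 ≤ 2 * n := by
    have : ((R' + 1 : ℕ) : ℝ) ≤ ((2 * n : ℕ) : ℝ) := by
      rw [← hmdef]
      push_cast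
      linarith
    exact_mod_cast this
  obtain ⟨L₀, hL₀⟩ := hcmp (2 * n) hqm
  refine ⟨max (max L₀ (2 * n)) r, ?_⟩
  intro L _ hL Ψ hΨ hTI
  have hTIe := transInv_expec Ψ hΨ.1 hTI
  have hen := hL₀ L (by omega) Ψ hΨ hTI φ hφ
  rw [← hmdef] at hen hφ2
  -- the parameters
  obtain ⟨ε₁, hε₁⟩ : ∃ ε₁ : ℝ, ε₁ = ε / a := ⟨_, rfl⟩
  have hε₁0 : 0 < ε₁ := by rw [hε₁]; positivity
  have hε₁1 : ε₁ ≤ 1 := by
    rw [hε₁, div_le_one (by linarith)]; linarith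
  obtain ⟨κ₁, hκ₁⟩ : ∃ κ₁ : ℝ, κ₁ = κ + C₂ * β / m := ⟨_, rfl⟩
  have hκ₁0 : 0 ≤ κ₁ := by rw [hκ₁]; positivity
  have hcond : C₁ * (1 + β) / ε₁ ≤ ((2 * n : ℕ) : ℝ) := by
    rw [← hmdef, div_le_iff₀ hε₁0, hε₁, ← mul_div_assoc, le_div_iff₀ (by linarith)]
    have : C₁ * a * (1 + β) ≤ C * (1 + β) := by
      refine mul_le_mul_of_nonneg_right ?_ (by linarith)
      rw [hCdef]; linarith
    linarith
  have hZ : Real.log (NormedSpace.exp (((-β : ℝ) : ℂ) • Pool.Agent.TH235.PP.ham h (2 * n))).trace.re +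
      β * (((2 * n : ℕ) : ℝ) ^ 2 * (expec Ψ 0 (fun x y => h x y)).re) ≤
      κ₁ * ((2 * n : ℕ) : ℝ) ^ 2 := by
    rw [← hmdef]
    have h1 := mul_le_mul_of_nonneg_left hen hβ
    have e1 : κ₁ * m ^ 2 = κ * m ^ 2 + β * (C₂ * m) := by
      rw [hκ₁]; field_simp
    rw [e1]
    linarith
  obtain ⟨f, hf, hR⟩ := hreach n L (by omega) ε₁ hε₁0 hε₁1 β hβ hcond Ψ hΨ.1 hTIe h hh le_rfl κ₁
    hκ₁0 hZ
  rw [← hmdef] at hf
  have hη : C₁ * ε₁ ≤ ε / (2 * c) := by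
    rw [hε₁, ha, ← mul_div_assoc, div_le_div_iff₀ (by positivity) (by positivity)]
    nlinarith [mul_pos hε hc0]
  have hc3 : 2 * c / ε ≤ ((2 * n : ℕ) : ℝ) := by
    rw [← hmdef, div_le_iff₀ hε]
    have : 2 * c ≤ C := by rw [hCdef]; linarith
    nlinarith
  obtain ⟨D, A, hD, hA⟩ := hfin ε hε hε1 (2 * n) f L hc3 (by omega) _ hf Ψ hΨ.1
    (reach_mono hR hη)
  rw [← hmdef] at hD hA
  refine ⟨D, A, hD.trans (Real.exp_le_exp.2 ?_), ?_⟩
  · rw [← hmdef]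
    have hlog : 0 ≤ Real.log m := Real.log_nonneg hm1
    have hbm : β / (m * ε) ≤ 1 := by
      rw [div_le_one (by positivity)]
      nlinarith
    have e2 : κ₁ / ε₁ = a * (κ / ε + C₂ * (β / (m * ε))) := by
      rw [hκ₁, hε₁]; field_simp
    have hκε : 0 ≤ κ / ε := by positivity
    have h3 : κ₁ / ε₁ ≤ a * (κ / ε + C₂) := by
      rw [e2]
      refine mul_le_mul_of_nonneg_left ?_ (by linarith)
      have := mul_le_mul_of_nonneg_left hbm hC₂.le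
      linarith
    have h4 : c + 4 * (C₁ * (1 + β + κ₁ / ε₁)) ≤ C * (1 + β + κ / ε) := by
      have h5 : 4 * (C₁ * (1 + β + κ₁ / ε₁)) ≤ 4 * (C₁ * (1 + β + a * (κ / ε + C₂))) := by
        have := mul_le_mul_of_nonneg_left h3 hC₁.le
        linarith
      have h6 : 4 * (C₁ * (1 + β + a * (κ / ε + C₂))) =
          4 * C₁ * (1 + a * C₂) + 4 * C₁ * β + 4 * C₁ * a * (κ / ε) := by ring
      have h7 : c + 4 * C₁ * (1 + a * C₂) ≤ C := by
        have e3 : 4 * C₁ * (1 + a * (C₂ + 1)) = 4 * C₁ * (1 + a * C₂) + 4 * C₁ * a := by ring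
        rw [hCdef, e3]
        linarith
      have h8 : 4 * C₁ * β ≤ C * β := by
        refine mul_le_mul_of_nonneg_right ?_ hβ
        rw [hCdef]; linarith
      have h9 : 4 * C₁ * a * (κ / ε) ≤ C * (κ / ε) := by
        refine mul_le_mul_of_nonneg_right ?_ hκε
        rw [hCdef]; linarith
      nlinarith
    have h10 : c * Real.log m + 4 * (C₁ * Real.log m) ≤ C * Real.log m := by
      have : (c + 4 * C₁) * Real.log m ≤ C * Real.log m :=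
        mul_le_mul_of_nonneg_right (by rw [hCdef]; linarith) hlog
      linarith
    calc c * Real.log m + 4 * (C₁ * (1 + β + κ₁ / ε₁ + Real.log m))
        = (c * Real.log m + 4 * (C₁ * Real.log m)) + 4 * (C₁ * (1 + β + κ₁ / ε₁)) := by ring
      _ ≤ C * Real.log m + C * (1 + β + κ / ε) := by
          refine add_le_add h10 ?_
          linarith
      _ = C * (1 + β + κ / ε + Real.log m) := by ring
  · intro L' _ hL'
    rw [← hmdef] at hL'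
    have hm4 : m ≤ m ^ 4 := by
      calc m = m ^ 1 := (pow_one m).symm
        _ ≤ m ^ 4 := pow_le_pow_right₀ hm1 (by norm_num)
    refine hreg D L A Ψ (c * m ^ 4) ε (by omega) ?_ hΨ.1 hTIe hA L' (le_trans ?_ hL')
    · have h1 : (r : ℝ) ≤ m := by
        have : (r : ℝ) ≤ C := by rw [hCdef]; linarith
        linarith
      have h2 : m ^ 4 ≤ c * m ^ 4 := by
        have : (0 : ℝ) ≤ m ^ 4 := by positivity
        nlinarith
      linarith
    · refine mul_le_mul_of_nonneg_right ?_ (by positivity)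
      rw [hCdef]; linarith

/-- the common part of the two laws -/
theorem core (h1 : StmFree1G) (h2 : StmFreeDown) (d R' : ℕ) (hd : 2 ≤ d)
    (h : Pool.Agent.TH235.PP.BoxOp d (R' + 1)) (hh : h.IsHermitian) (R : Finset (ℤ × ℤ))
    (K₀ : ℝ) (hK₀ : 0 ≤ K₀) : ∃ C : ℝ, 0 < C ∧ ∀ ε : ℝ, 0 < ε → ε ≤ 1 → ∀ β κ₀ : ℝ, 0 ≤ β → 0 ≤ κ₀ →
    (1 + β) * ε ≤ K₀ → (∃ m₀ : ℕ, ∀ (m : ℕ) [NeZero m], m₀ ≤ m → FreeLe h m β κ₀) →
    ∃ L₀ : ℕ, ∀ (L : ℕ) [NeZero L], L₀ ≤ L → ∀ Ψ : Conf d L → ℂ,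
    IsGround (fun x y : BConf d (R' + 1) => h x y) L Ψ → TransInv Ψ →
    ∃ (D : ℕ) (A : Tensor d D),
      (D : ℝ) ≤ Real.exp (C * (1 + β + κ₀ / ε + Real.log (2 / ε))) ∧
      ∀ (L' : ℕ) [NeZero L'], C * (1 / ε) ^ 8 ≤ L' →
        nrm (pepsX A L') ≠ 0 ∧ Close R Ψ (pepsX A L') ε := by
  obtain ⟨C₁, hC₁, H1⟩ := h1 d R' hd h hh R
  obtain ⟨C₂, hC₂, H2⟩ := h2 d R' hd h hh
  obtain ⟨K₁, hK₁⟩ : ∃ K₁ : ℝ, K₁ = 2 * (C₁ * K₀ + R' + 2) := ⟨_, rfl⟩
  have hK₁1 : 4 ≤ K₁ := by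
    rw [hK₁]
    have : 0 ≤ C₁ * K₀ := mul_nonneg hC₁.le hK₀
    have : (0 : ℝ) ≤ R' := Nat.cast_nonneg _
    linarith
  have hl2 : 0 < Real.log 2 := Real.log_pos (by norm_num)
  have hlK : 0 ≤ Real.log K₁ := Real.log_nonneg (by linarith)
  obtain ⟨E, hE⟩ : ∃ E : ℝ, E = C₁ * ((1 + C₂ / C₁) * (Real.log K₁ / Real.log 2 + 2)) := ⟨_, rfl⟩
  have hE0 : 0 < E := by
    rw [hE]
    have : 0 ≤ C₂ / C₁ := by positivity
    have : 0 ≤ Real.log K₁ / Real.log 2 := by positivity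
    positivity
  refine ⟨E + C₁ * K₁ ^ 4, by positivity, fun ε hε hε1 β κ₀ hβ hκ₀ hβε hm => ?_⟩
  obtain ⟨m₀, hm₀⟩ := hm
  obtain ⟨n, hn⟩ : ∃ n : ℕ, n = ⌈C₁ * (1 + β) / ε⌉₊ + R' + 1 := ⟨_, rfl⟩
  have hn0 : 0 < n := by omega
  have hnR : R' + 1 ≤ n := by omega
  have i1 : NeZero (2 * n) := ⟨by omega⟩
  have i2 : NeZero (2 * n * (m₀ + 1)) := ⟨by positivity⟩
  have hX0 : 0 ≤ C₁ * (1 + β) / ε := by positivity
  have hn1 : C₁ * (1 + β) / ε ≤ n := by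
    rw [hn]
    push_cast
    have := Nat.le_ceil (C₁ * (1 + β) / ε)
    have : (0 : ℝ) ≤ R' := Nat.cast_nonneg _
    linarith
  have hn2 : C₁ * (1 + β) / ε ≤ ((2 * n : ℕ) : ℝ) := by
    push_cast
    have : (0 : ℝ) ≤ n := Nat.cast_nonneg _
    linarith
  have hn3 : ((2 * n : ℕ) : ℝ) ≤ K₁ * (1 / ε) ^ 2 := by
    have h3 := Nat.ceil_lt_add_one hX0
    have h4 : C₁ * (1 + β) / ε ≤ C₁ * K₀ * (1 / ε) ^ 2 := by
      have h5 : C₁ * (1 + β) / ε = C₁ * ((1 + β) * ε) * (1 / ε) ^ 2 := by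
        field_simp
      rw [h5]
      exact mul_le_mul_of_nonneg_right (mul_le_mul_of_nonneg_left hβε hC₁.le) (by positivity)
    have h6 : 1 ≤ (1 / ε) ^ 2 := by
      have : 1 ≤ 1 / ε := by rw [le_div_iff₀ hε]; linarith
      nlinarith
    have h7 : (R' : ℝ) + 2 ≤ (R' + 2) * (1 / ε) ^ 2 := le_mul_of_one_le_right (by positivity) h6
    rw [hn, hK₁]
    push_cast
    nlinarith
  have hlog : Real.log ((2 * n : ℕ) : ℝ) ≤ (Real.log K₁ / Real.log 2 + 2) * Real.log (2 / ε) := by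
    have h3 : (0 : ℝ) < ((2 * n : ℕ) : ℝ) := by exact_mod_cast (by omega : 0 < 2 * n)
    have h4 := Real.log_le_log h3 hn3
    rw [Real.log_mul (by linarith) (by positivity), Real.log_pow] at h4
    have h5 : Real.log (1 / ε) ≤ Real.log (2 / ε) :=
      Real.log_le_log (by positivity) (div_le_div_of_nonneg_right (by norm_num) hε.le)
    have h6 : Real.log 2 ≤ Real.log (2 / ε) :=
      Real.log_le_log (by norm_num) (by rw [le_div_iff₀ hε]; linarith)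
    have h7 : Real.log K₁ ≤ Real.log K₁ / Real.log 2 * Real.log (2 / ε) := by
      calc Real.log K₁ = Real.log K₁ / Real.log 2 * Real.log 2 := by field_simp
        _ ≤ Real.log K₁ / Real.log 2 * Real.log (2 / ε) := mul_le_mul_of_nonneg_left h6 (by positivity)
    rw [Nat.cast_ofNat (n := 2)] at h4
    linarith
  have hlog0 : 0 ≤ Real.log ((2 * n : ℕ) : ℝ) := by
    apply Real.log_nonneg
    exact_mod_cast (by omega : 1 ≤ 2 * n)
  have hlogε : 0 ≤ Real.log (2 / ε) := by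
    apply Real.log_nonneg
    rw [le_div_iff₀ hε]
    linarith
  have hF := H2 n (m₀ + 1) hnR β κ₀ hβ (hm₀ (2 * n * (m₀ + 1)) (by nlinarith))
  obtain ⟨κ, hκ⟩ : ∃ κ : ℝ, κ = κ₀ + C₂ * β / (2 * n : ℕ) := ⟨_, rfl⟩
  rw [← hκ] at hF
  have hκ0 : 0 ≤ κ := by rw [hκ]; positivity
  obtain ⟨L₀, hL₀⟩ := H1 ε hε hε1 β hβ n hn2 κ hκ0 hF
  refine ⟨L₀, fun L _ hL Ψ hΨ hT => ?_⟩
  obtain ⟨D, A, hD, hA⟩ := hL₀ L hL Ψ hΨ hT
  refine ⟨D, A, hD.trans ?_, fun L' _ hL' => hA L' ?_⟩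
  · rw [Real.exp_le_exp]
    have h3 : C₂ * β / (2 * n : ℕ) / ε ≤ C₂ / C₁ * (1 + β) := by
      rcases eq_or_lt_of_le hβ with h0 | h0
      · rw [← h0]
        simp
        positivity
      · have h4 : (0 : ℝ) < ((2 * n : ℕ) : ℝ) := by exact_mod_cast (by omega : 0 < 2 * n)
        have h5 : C₁ * (1 + β) ≤ ((2 * n : ℕ) : ℝ) * ε := by rwa [div_le_iff₀ hε] at hn2
        rw [div_div, div_le_iff₀ (by positivity)]
        calc C₂ * β ≤ C₂ * (1 + β) * 1 := by nlinarith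
          _ ≤ C₂ * (1 + β) * (1 + β) := mul_le_mul_of_nonneg_left (by linarith) (by positivity)
          _ = C₂ / C₁ * (1 + β) * (C₁ * (1 + β)) := by field_simp
          _ ≤ C₂ / C₁ * (1 + β) * (((2 * n : ℕ) : ℝ) * ε) := mul_le_mul_of_nonneg_left h5 (by positivity)
    have h4 : 1 + β + κ / ε ≤ (1 + C₂ / C₁) * (1 + β + κ₀ / ε) := by
      have h5 : κ / ε = κ₀ / ε + C₂ * β / (2 * n : ℕ) / ε := by rw [hκ, add_div]
      have h6 : 0 ≤ C₂ / C₁ * (κ₀ / ε) := by positivity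
      rw [h5]
      nlinarith
    have h5 : 0 ≤ 1 + β + κ / ε := by positivity
    have h6 : 0 ≤ 1 + β + κ₀ / ε := by positivity
    obtain ⟨a₁, ha₁⟩ : ∃ a₁ : ℝ, a₁ = 1 + C₂ / C₁ := ⟨_, rfl⟩
    obtain ⟨a₂, ha₂⟩ : ∃ a₂ : ℝ, a₂ = Real.log K₁ / Real.log 2 + 2 := ⟨_, rfl⟩
    have ha₁1 : 1 ≤ a₁ := by
      rw [ha₁]
      have : 0 ≤ C₂ / C₁ := by positivity
      linarith
    have ha₂1 : 1 ≤ a₂ := by
      rw [ha₂]
      have : 0 ≤ Real.log K₁ / Real.log 2 := by positivity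
      linarith
    rw [← ha₁] at h4
    rw [← ha₂] at hlog
    have h7 : 1 + β + κ / ε + Real.log ((2 * n : ℕ) : ℝ) ≤
        (a₁ * a₂) * (1 + β + κ₀ / ε + Real.log (2 / ε)) := by
      have h8 : a₁ * (1 + β + κ₀ / ε) ≤ (a₁ * a₂) * (1 + β + κ₀ / ε) :=
        mul_le_mul_of_nonneg_right (le_mul_of_one_le_right (by linarith) ha₂1) h6
      have h9 : a₂ * Real.log (2 / ε) ≤ (a₁ * a₂) * Real.log (2 / ε) :=
        mul_le_mul_of_nonneg_right (le_mul_of_one_le_left (by linarith) ha₁1) hlogε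
      have h10 : (a₁ * a₂) * (1 + β + κ₀ / ε + Real.log (2 / ε)) =
        (a₁ * a₂) * (1 + β + κ₀ / ε) + (a₁ * a₂) * Real.log (2 / ε) := by ring
      rw [h10]
      linarith
    calc C₁ * (1 + β + κ / ε + Real.log ((2 * n : ℕ) : ℝ))
        ≤ C₁ * ((a₁ * a₂) * (1 + β + κ₀ / ε + Real.log (2 / ε))) :=
          mul_le_mul_of_nonneg_left h7 hC₁.le
      _ = E * (1 + β + κ₀ / ε + Real.log (2 / ε)) := by rw [hE, ha₁, ha₂]; ring
      _ ≤ (E + C₁ * K₁ ^ 4) * (1 + β + κ₀ / ε + Real.log (2 / ε)) := by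
          refine mul_le_mul_of_nonneg_right ?_ (by linarith)
          have : 0 ≤ C₁ * K₁ ^ 4 := by positivity
          linarith
  · refine le_trans ?_ hL'
    have h3 : ((2 * n : ℕ) : ℝ) ^ 4 ≤ (K₁ * (1 / ε) ^ 2) ^ 4 := pow_le_pow_left₀ (Nat.cast_nonneg _) hn3 4
    calc C₁ * ((2 * n : ℕ) : ℝ) ^ 4 ≤ C₁ * (K₁ * (1 / ε) ^ 2) ^ 4 := mul_le_mul_of_nonneg_left h3 hC₁.le
      _ = C₁ * K₁ ^ 4 * (1 / ε) ^ 8 := by ring
      _ ≤ (E + C₁ * K₁ ^ 4) * (1 / ε) ^ 8 := mul_le_mul_of_nonneg_right (by linarith) (by positivity)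

/-- The thermodynamic condition: power law. -/
def StmFree2G : Prop := ∀ (d R' : ℕ), 2 ≤ d → ∀ h : Pool.Agent.TH235.PP.BoxOp d (R' + 1),
  h.IsHermitian → ∀ (R : Finset (ℤ × ℤ)) (a α : ℝ), 0 ≤ a → 0 < α →
  (∀ β : ℝ, 1 ≤ β → ∃ m₀ : ℕ, ∀ (m : ℕ) [NeZero m], m₀ ≤ m → FreeLe h m β (a * β ^ (-α))) →
  ∃ C : ℝ, 0 < C ∧ ∀ ε : ℝ, 0 < ε → ε ≤ 1 →
  ∃ L₀ : ℕ, ∀ (L : ℕ) [NeZero L], L₀ ≤ L → ∀ Ψ : Conf d L → ℂ,
    IsGround (fun x y : BConf d (R' + 1) => h x y) L Ψ → TransInv Ψ →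
    ∃ (D : ℕ) (A : Tensor d D),
      (D : ℝ) ≤ Real.exp (C * ε ^ (-(1 / (1 + α)))) ∧
      ∀ (L' : ℕ) [NeZero L'], C * (1 / ε) ^ 8 ≤ L' →
        nrm (pepsX A L') ≠ 0 ∧ Close R Ψ (pepsX A L') ε

/-- The thermodynamic condition: exponential law. -/
def StmFree3G : Prop := ∀ (d R' : ℕ), 2 ≤ d → ∀ h : Pool.Agent.TH235.PP.BoxOp d (R' + 1),
  h.IsHermitian → ∀ (R : Finset (ℤ × ℤ)) (a c : ℝ), 0 ≤ a → 0 < c →
  (∀ β : ℝ, 1 ≤ β → ∃ m₀ : ℕ, ∀ (m : ℕ) [NeZero m], m₀ ≤ m → FreeLe h m β (a * Real.exp (-(c * β)))) →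
  ∃ C : ℝ, 0 < C ∧ ∀ ε : ℝ, 0 < ε → ε ≤ 1 →
  ∃ L₀ : ℕ, ∀ (L : ℕ) [NeZero L], L₀ ≤ L → ∀ Ψ : Conf d L → ℂ,
    IsGround (fun x y : BConf d (R' + 1) => h x y) L Ψ → TransInv Ψ →
    ∃ (D : ℕ) (A : Tensor d D),
      (D : ℝ) ≤ Real.exp (C * Real.log (2 / ε)) ∧
      ∀ (L' : ℕ) [NeZero L'], C * (1 / ε) ^ 8 ≤ L' →
        nrm (pepsX A L') ≠ 0 ∧ Close R Ψ (pepsX A L') ε

open Pool.Agent.N658.TP.Sp in
/-- The spectral condition. -/
def StmFree4G : Prop := ∀ (d R' : ℕ), 2 ≤ d → ∀ h : Pool.Agent.TH235.PP.BoxOp d (R' + 1),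
  h.IsHermitian → ∀ (R : Finset (ℤ × ℤ)) (c : ℝ), 0 ≤ c →
  (∃ m₀ : ℕ, ∀ (m : ℕ) [NeZero m], m₀ ≤ m → ∀ M : ℕ,
    (cnt (fun x y : BConf d (R' + 1) => h x y) m M : ℝ) ≤ (m : ℝ) ^ (c * (M + 1))) →
  ∃ C : ℝ, 0 < C ∧ ∀ ε : ℝ, 0 < ε → ε ≤ 1 →
  ∃ L₀ : ℕ, ∀ (L : ℕ) [NeZero L], L₀ ≤ L → ∀ Ψ : Conf d L → ℂ,
    IsGround (fun x y : BConf d (R' + 1) => h x y) L Ψ → TransInv Ψ →
    ∃ (D : ℕ) (A : Tensor d D),
      (D : ℝ) ≤ Real.exp (C * Real.log (2 / ε)) ∧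
      ∀ (L' : ℕ) [NeZero L'], C * (1 / ε) ^ 8 ≤ L' →
        nrm (pepsX A L') ≠ 0 ∧ Close R Ψ (pepsX A L') ε

/-- K4 -/
theorem free2 (h1 : StmFree1G) (h2 : StmFreeDown) : StmFree2G := by
  intro d R' hd h hh R a α ha hα H
  obtain ⟨C, hC, hcore⟩ := core h1 h2 d R' hd h hh R 2 (by norm_num)
  refine ⟨C * (4 + α + a), by positivity, fun ε hε hε1 => ?_⟩
  obtain ⟨β, hβ⟩ : ∃ β : ℝ, β = ε ^ (-(1 / (1 + α))) := ⟨_, rfl⟩
  have hβ1 : 1 ≤ β := by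
    rw [hβ]
    exact Real.one_le_rpow_of_pos_of_le_one_of_nonpos hε hε1 (by
      have : 0 ≤ 1 / (1 + α) := by positivity
      linarith)
  have hβ2 : β * ε ≤ 1 := by
    have h3 : β * ε = ε ^ (α / (1 + α)) := by
      rw [hβ]
      nth_rewrite 2 [← Real.rpow_one ε]
      rw [← Real.rpow_add hε]
      congr 1
      field_simp
      ring
    rw [h3]
    exact Real.rpow_le_one hε.le hε1 (by positivity)
  have hβa : β ^ (-α) / ε = β := by
    have h3 : β ^ (-α) = ε ^ (α / (1 + α)) := by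
      rw [hβ, ← Real.rpow_mul hε.le]
      congr 1
      field_simp
    rw [h3, hβ]
    nth_rewrite 2 [← Real.rpow_one ε]
    rw [← Real.rpow_sub hε]
    congr 1
    field_simp
    ring
  obtain ⟨L₀, hL₀⟩ := hcore ε hε hε1 β (a * β ^ (-α)) (by linarith)
    (mul_nonneg ha (Real.rpow_nonneg (by linarith) _)) (by linarith) (H β hβ1)
  refine ⟨L₀, fun L _ hL Ψ hΨ hT => ?_⟩
  obtain ⟨D, A, hD, hA⟩ := hL₀ L hL Ψ hΨ hT
  have hlogε : 0 ≤ Real.log (2 / ε) := by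
    apply Real.log_nonneg
    rw [le_div_iff₀ hε]
    linarith
  refine ⟨D, A, hD.trans ?_, fun L' _ hL' => hA L' (le_trans ?_ hL')⟩
  · rw [Real.exp_le_exp]
    have hlb : Real.log (2 / ε) ≤ (2 + α) * β := by
      have k1 : Real.log (2 / ε) = Real.log 2 + Real.log (1 / ε) := by
        rw [← Real.log_mul (by norm_num) (by positivity)]
        congr 1
        ring
      have k2 : Real.log (1 / ε) = (1 + α) * Real.log β := by
        rw [hβ, Real.log_rpow hε, one_div, Real.log_inv]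
        field_simp
      have k3 : Real.log β ≤ β := by
        have := Real.log_le_sub_one_of_pos (show (0 : ℝ) < β by linarith)
        linarith
      have k4 : Real.log 2 ≤ 1 := by
        have := Real.log_le_sub_one_of_pos (show (0 : ℝ) < 2 by norm_num)
        linarith
      have k5 : (1 + α) * Real.log β ≤ (1 + α) * β := mul_le_mul_of_nonneg_left k3 (by linarith)
      rw [k1, k2]
      linarith
    rw [← hβ, mul_div_assoc, hβa, mul_assoc]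
    refine mul_le_mul_of_nonneg_left ?_ hC.le
    linarith
  · refine mul_le_mul_of_nonneg_right ?_ (by positivity)
    nlinarith

/-- K5 -/
theorem free3 (h1 : StmFree1G) (h2 : StmFreeDown) : StmFree3G := by
  intro d R' hd h hh R a c ha hc H
  obtain ⟨C, hC, hcore⟩ := core h1 h2 d R' hd h hh R (2 + 1 / c) (by positivity)
  have hl2 : 0 < Real.log 2 := Real.log_pos (by norm_num)
  obtain ⟨M, hM⟩ : ∃ M : ℝ, M = (2 + a) / Real.log 2 + 1 / c + 2 := ⟨_, rfl⟩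
  have hM1 : 1 ≤ M := by
    rw [hM]
    have : 0 ≤ (2 + a) / Real.log 2 := by positivity
    have : 0 ≤ 1 / c := by positivity
    linarith
  refine ⟨C * M, by positivity, fun ε hε hε1 => ?_⟩
  have hle : 0 ≤ Real.log (1 / ε) := Real.log_nonneg (by rw [le_div_iff₀ hε]; linarith)
  have hle1 : Real.log (1 / ε) * ε ≤ 1 := by
    have h3 : Real.log (1 / ε) ≤ 1 / ε := by
      have := Real.log_le_sub_one_of_pos (show (0 : ℝ) < 1 / ε by positivity)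
      linarith
    calc Real.log (1 / ε) * ε ≤ 1 / ε * ε := mul_le_mul_of_nonneg_right h3 hε.le
      _ = 1 := by field_simp
  obtain ⟨β, hβ⟩ : ∃ β : ℝ, β = 1 + Real.log (1 / ε) / c := ⟨_, rfl⟩
  have hβ1 : 1 ≤ β := by
    rw [hβ]
    have : 0 ≤ Real.log (1 / ε) / c := by positivity
    linarith
  have hβ2 : (1 + β) * ε ≤ 2 + 1 / c := by
    have h3 : (1 + β) * ε = 2 * ε + Real.log (1 / ε) * ε / c := by rw [hβ]; ring
    rw [h3]
    have h4 : Real.log (1 / ε) * ε / c ≤ 1 / c := div_le_div_of_nonneg_right hle1 hc.le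
    linarith
  have hβa : a * Real.exp (-(c * β)) / ε ≤ a := by
    have h3 : Real.exp (-(c * β)) = Real.exp (-c) * ε := by
      have h4 : -(c * β) = -c + Real.log ε := by
        rw [hβ, one_div, Real.log_inv]
        field_simp
        ring
      rw [h4, Real.exp_add, Real.exp_log hε]
    rw [h3]
    have h4 : a * (Real.exp (-c) * ε) / ε = a * Real.exp (-c) := by field_simp
    rw [h4]
    have h5 : Real.exp (-c) ≤ 1 := Real.exp_le_one_iff.2 (by linarith)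
    exact mul_le_of_le_one_right ha h5
  obtain ⟨L₀, hL₀⟩ := hcore ε hε hε1 β (a * Real.exp (-(c * β))) (by linarith)
    (by positivity) hβ2 (H β hβ1)
  refine ⟨L₀, fun L _ hL Ψ hΨ hT => ?_⟩
  obtain ⟨D, A, hD, hA⟩ := hL₀ L hL Ψ hΨ hT
  have hlogε : Real.log 2 ≤ Real.log (2 / ε) :=
    Real.log_le_log (by norm_num) (by rw [le_div_iff₀ hε]; linarith)
  refine ⟨D, A, hD.trans ?_, fun L' _ hL' => hA L' (le_trans ?_ hL')⟩
  · rw [Real.exp_le_exp, mul_assoc]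
    refine mul_le_mul_of_nonneg_left ?_ hC.le
    have h5 : Real.log (1 / ε) ≤ Real.log (2 / ε) :=
      Real.log_le_log (by positivity) (div_le_div_of_nonneg_right (by norm_num) hε.le)
    have h6 : 2 + a ≤ (2 + a) / Real.log 2 * Real.log (2 / ε) := by
      calc 2 + a = (2 + a) / Real.log 2 * Real.log 2 := by field_simp
        _ ≤ (2 + a) / Real.log 2 * Real.log (2 / ε) := mul_le_mul_of_nonneg_left hlogε (by positivity)
    have h7 : Real.log (1 / ε) / c ≤ 1 / c * Real.log (2 / ε) := by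
      rw [div_eq_mul_one_div, mul_comm]
      exact mul_le_mul_of_nonneg_left h5 (by positivity)
    have h8 : 0 ≤ Real.log (2 / ε) := by linarith
    have h9 : 1 + β + a * Real.exp (-(c * β)) / ε ≤ (2 + a) + Real.log (1 / ε) / c := by
      have : 1 + β = 2 + Real.log (1 / ε) / c := by rw [hβ]; ring
      linarith
    rw [hM]
    nlinarith
  · refine mul_le_mul_of_nonneg_right ?_ (by positivity)
    nlinarith

open Pool.Agent.N658.TP.Sp Pool.Agent.N73.TP in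
/-- F3 -/
theorem free4 (h1 : StmFree1G) (h2 : StmFreeOf) (h3 : StmPartCnt) : StmFree4G := by
  intro d R' hd h hh R c hc hcnt
  obtain ⟨m₀, hm₀⟩ := hcnt
  obtain ⟨C₁, hC₁, H1⟩ := h1 d R' hd h hh R
  obtain ⟨K, hK⟩ : ∃ K : ℝ, K = m₀ + R' + 1 + (C₁ * (2 + 2 * c)) ^ 2 := ⟨_, rfl⟩
  have hm0 : (0 : ℝ) ≤ m₀ := Nat.cast_nonneg _
  have hR0 : (0 : ℝ) ≤ R' := Nat.cast_nonneg _
  have hsq0 : 0 ≤ (C₁ * (2 + 2 * c)) ^ 2 := sq_nonneg _
  have hK1 : 1 ≤ K := by rw [hK]; linarith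
  obtain ⟨K₁, hK₁⟩ : ∃ K₁ : ℝ, K₁ = 2 * (K + 1) := ⟨_, rfl⟩
  have hK₁1 : 4 ≤ K₁ := by rw [hK₁]; linarith
  have hl2 : 0 < Real.log 2 := Real.log_pos (by norm_num)
  have hlK : 0 ≤ Real.log K₁ := Real.log_nonneg (by linarith)
  obtain ⟨K₂, hK₂⟩ : ∃ K₂ : ℝ, K₂ = Real.log K₁ / Real.log 2 + 2 := ⟨_, rfl⟩
  have hK₂0 : 0 < K₂ := by
    rw [hK₂]
    positivity
  obtain ⟨E, hE⟩ : ∃ E : ℝ, E = C₁ * (c * K₂ + (4 * c + 3) / Real.log 2 + K₂) := ⟨_, rfl⟩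
  have hE0 : 0 < E := by
    rw [hE]
    positivity
  refine ⟨E + C₁ * K₁ ^ 4, by positivity, fun ε hε hε1 => ?_⟩
  have h1ε : 1 ≤ 1 / ε := by rw [le_div_iff₀ hε]; linarith
  have h1ε2 : 1 ≤ (1 / ε) ^ 2 := by nlinarith
  obtain ⟨n, hn⟩ : ∃ n : ℕ, n = ⌈K * (1 / ε) ^ 2⌉₊ := ⟨_, rfl⟩
  have hX0 : 0 ≤ K * (1 / ε) ^ 2 := by positivity
  have hn1 : K * (1 / ε) ^ 2 ≤ n := by
    rw [hn]
    exact Nat.le_ceil _
  have hnK : K ≤ n := (le_mul_of_one_le_right (by linarith) h1ε2).trans hn1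
  have hn0 : 0 < n := by
    have : (0 : ℝ) < n := by linarith
    exact_mod_cast this
  have i1 : NeZero (2 * n) := ⟨by omega⟩
  obtain ⟨m, hm⟩ : ∃ m : ℝ, m = ((2 * n : ℕ) : ℝ) := ⟨_, rfl⟩
  have hmn : m = 2 * n := by rw [hm]; push_cast; rfl
  have hm1 : K * (1 / ε) ^ 2 ≤ m := by
    rw [hmn]
    have : (0 : ℝ) ≤ n := Nat.cast_nonneg _
    linarith
  have hmone : 1 ≤ m := by
    rw [hmn]
    have : (1 : ℝ) ≤ n := by exact_mod_cast hn0
    linarith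
  have hmpos : 0 < m := by linarith
  have hm3 : m ≤ K₁ * (1 / ε) ^ 2 := by
    have h4 := Nat.ceil_lt_add_one hX0
    rw [← hn] at h4
    rw [hmn, hK₁]
    nlinarith
  have hm₀n : m₀ ≤ 2 * n := by
    have h4 : (m₀ : ℝ) ≤ n := by
      refine le_trans ?_ hnK
      rw [hK]
      linarith
    have h5 : m₀ ≤ n := by exact_mod_cast h4
    omega
  have hR'n : R' + 1 ≤ 2 * n := by
    have h4 : ((R' + 1 : ℕ) : ℝ) ≤ n := by
      refine le_trans ?_ hnK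
      rw [hK]
      push_cast
      linarith
    have h5 : R' + 1 ≤ n := by exact_mod_cast h4
    omega
  have hlogε : 0 < Real.log (2 / ε) := by
    apply Real.log_pos
    rw [lt_div_iff₀ hε]
    linarith
  have hlog2 : Real.log 2 ≤ Real.log (2 / ε) :=
    Real.log_le_log (by norm_num) (by rw [le_div_iff₀ hε]; linarith)
  have hlog : Real.log m ≤ K₂ * Real.log (2 / ε) := by
    have h4 := Real.log_le_log hmpos hm3
    rw [Real.log_mul (by linarith) (by positivity), Real.log_pow] at h4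
    have h5 : Real.log (1 / ε) ≤ Real.log (2 / ε) :=
      Real.log_le_log (by positivity) (div_le_div_of_nonneg_right (by norm_num) hε.le)
    have h7 : Real.log K₁ ≤ Real.log K₁ / Real.log 2 * Real.log (2 / ε) := by
      calc Real.log K₁ = Real.log K₁ / Real.log 2 * Real.log 2 := by field_simp
        _ ≤ Real.log K₁ / Real.log 2 * Real.log (2 / ε) :=
          mul_le_mul_of_nonneg_left hlog2 (by positivity)
    rw [Nat.cast_ofNat (n := 2)] at h4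
    rw [hK₂]
    linarith
  have hlog0 : 0 ≤ Real.log m := Real.log_nonneg hmone
  have hsm := log_le_sqrt hmpos
  have hs1 : 1 ≤ Real.sqrt m := Real.one_le_sqrt.2 hmone
  have hss : Real.sqrt m * Real.sqrt m = m := Real.mul_self_sqrt hmpos.le
  obtain ⟨β, hβ⟩ : ∃ β : ℝ, β = c * Real.log m + 1 := ⟨_, rfl⟩
  have hβ0 : 0 ≤ β := by rw [hβ]; positivity
  have hβ1 : C₁ * (1 + β) / ε ≤ m := by
    have h4 : 1 + β ≤ (2 + 2 * c) * Real.sqrt m := by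
      rw [hβ]
      nlinarith
    have h5 : C₁ * (2 + 2 * c) * (1 / ε) ≤ Real.sqrt m := by
      apply Real.le_sqrt_of_sq_le
      refine le_trans ?_ hm1
      rw [mul_pow]
      refine mul_le_mul_of_nonneg_right ?_ (by positivity)
      rw [hK]
      linarith
    calc C₁ * (1 + β) / ε = C₁ * (1 / ε) * (1 + β) := by ring
      _ ≤ C₁ * (1 / ε) * ((2 + 2 * c) * Real.sqrt m) :=
          mul_le_mul_of_nonneg_left h4 (by positivity)
      _ = C₁ * (2 + 2 * c) * (1 / ε) * Real.sqrt m := by ring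
      _ ≤ Real.sqrt m * Real.sqrt m := mul_le_mul_of_nonneg_right h5 (Real.sqrt_nonneg _)
      _ = m := hss
  obtain ⟨κ, hκ⟩ : ∃ κ : ℝ, κ = (2 * c * Real.log m + 1) / m ^ 2 := ⟨_, rfl⟩
  have hκ0 : 0 ≤ κ := by rw [hκ]; positivity
  have hκm : κ * m ^ 2 = 2 * c * Real.log m + 1 := by
    rw [hκ]
    field_simp
  have hκε : κ / ε ≤ 4 * c + 1 := by
    have h4 : 2 * c * Real.log m + 1 ≤ (4 * c + 1) * m := by
      have h5 : Real.sqrt m ≤ m := by nlinarith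
      have h6 : 2 * c * Real.log m ≤ 2 * c * (2 * m) :=
        mul_le_mul_of_nonneg_left (by linarith) (by linarith)
      linarith
    have h5 : 1 ≤ m * ε := by
      have h6 : 1 / ε ≤ m := by
        refine le_trans ?_ hm1
        calc 1 / ε ≤ (1 / ε) ^ 2 := by nlinarith
          _ ≤ K * (1 / ε) ^ 2 := le_mul_of_one_le_left (by positivity) hK1
      rwa [div_le_iff₀ hε] at h6
    rw [hκ, div_div, div_le_iff₀ (by positivity)]
    calc 2 * c * Real.log m + 1 ≤ (4 * c + 1) * m := h4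
      _ = (4 * c + 1) * m * 1 := by ring
      _ ≤ (4 * c + 1) * m * (m * ε) := mul_le_mul_of_nonneg_left h5 (by positivity)
      _ = (4 * c + 1) * (m ^ 2 * ε) := by ring
  have hpart := h3 d (R' + 1) (2 * n) (fun x y : BConf d (R' + 1) => h x y) c hc
    (hm₀ (2 * n) hm₀n) β (by rw [← hm, hβ])
  rw [← hm] at hpart
  have hF : FreeLe h (2 * n) β κ := by
    refine h2 d R' (by omega) h hh (2 * n) hR'n β κ (hpart.trans ?_)
    rw [← hm, hκm]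
    have h4 : (2 : ℝ) * m ^ (2 * c) = Real.exp (2 * c * Real.log m + Real.log 2) := by
      rw [Real.exp_add, Real.exp_log (by norm_num : (0 : ℝ) < 2), mul_comm,
        Real.rpow_def_of_pos hmpos]
      congr 2
      ring
    rw [h4, Real.exp_le_exp]
    have h5 := Real.log_le_sub_one_of_pos (show (0 : ℝ) < 2 by norm_num)
    linarith
  obtain ⟨L₀, hL₀⟩ := H1 ε hε hε1 β hβ0 n (by rw [← hm]; exact hβ1) κ hκ0 hF
  refine ⟨L₀, fun L _ hL Ψ hΨ hT => ?_⟩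
  obtain ⟨D, A, hD, hA⟩ := hL₀ L hL Ψ hΨ hT
  refine ⟨D, A, hD.trans ?_, fun L' _ hL' => hA L' ?_⟩
  · rw [Real.exp_le_exp, ← hm]
    have h4 : 1 + β + κ / ε ≤ (c * K₂ + (4 * c + 3) / Real.log 2) * Real.log (2 / ε) := by
      have h5 : 4 * c + 3 ≤ (4 * c + 3) / Real.log 2 * Real.log (2 / ε) := by
        calc 4 * c + 3 = (4 * c + 3) / Real.log 2 * Real.log 2 := by field_simp
          _ ≤ (4 * c + 3) / Real.log 2 * Real.log (2 / ε) :=
            mul_le_mul_of_nonneg_left hlog2 (by positivity)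
      have h6 : c * Real.log m ≤ c * (K₂ * Real.log (2 / ε)) := mul_le_mul_of_nonneg_left hlog hc
      rw [hβ]
      linarith
    calc C₁ * (1 + β + κ / ε + Real.log m)
        ≤ C₁ * ((c * K₂ + (4 * c + 3) / Real.log 2) * Real.log (2 / ε) +
            K₂ * Real.log (2 / ε)) :=
          mul_le_mul_of_nonneg_left (by linarith) hC₁.le
      _ = E * Real.log (2 / ε) := by rw [hE]; ring
      _ ≤ (E + C₁ * K₁ ^ 4) * Real.log (2 / ε) := by
          refine mul_le_mul_of_nonneg_right ?_ hlogε.le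
          have : 0 ≤ C₁ * K₁ ^ 4 := by positivity
          linarith
  · refine le_trans ?_ hL'
    rw [← hm]
    have h4 : m ^ 4 ≤ (K₁ * (1 / ε) ^ 2) ^ 4 := pow_le_pow_left₀ hmpos.le hm3 4
    calc C₁ * m ^ 4 ≤ C₁ * (K₁ * (1 / ε) ^ 2) ^ 4 := mul_le_mul_of_nonneg_left h4 hC₁.le
      _ = C₁ * K₁ ^ 4 * (1 / ε) ^ 8 := by ring
      _ ≤ (E + C₁ * K₁ ^ 4) * (1 / ε) ^ 8 :=
          mul_le_mul_of_nonneg_right (by linarith) (by positivity)


theorem free1G' : StmFree1G := free1 reachG Pool.Agent.N711.TP.EnMul.enMul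

theorem free2G' : StmFree2G := free2 free1G' freeDown'

theorem free3G' : StmFree3G := free3 free1G' freeDown'

theorem free4G' : StmFree4G := free4 free1G' Pool.Agent.N658.TP.Sp.freeOf' Pool.Agent.N75.TP.partCnt

end Pool.Agent.U753.FE
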