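import Pool.Agent.N692.TP.Pb
import Pool.Agent.N134.TP.Col

/-!
# A Gibbs inequality for the weights `(1 - κ A) ^ (2 M)`

Let `X`, `K` be Hermitian, `(2 κ M) A = K - X`, and let `ρ` be proportional to `(1 - κ A) ^ (2 M)`.
Then `Tr (ρ K) ≤ ⟨Φ, (K - X) Φ⟩ + log Tr exp X + 4 M θ²`, for every unit vector `Φ`, `θ` a bound for the
absolute values of the eigenvalues of `κ A`.
-/

set_option autoImplicit false
set_option linter.unusedSectionVars false

open scoped BigOperators ComplexConjugate Classical InnerProductSpace Matrix ComplexOrder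

noncomputable section

namespace Pool.Agent.U753.FE

open Pool.Agent.N658.TP
open Pool.Agent.TH235.PP (ip normSq nr nr_sq nr_nonneg)

section gibbs

variable {n : Type} [Fintype n] [DecidableEq n]

/-- the columns of a unitary matrix are unit vectors -/
lemma col_unit (U : Matrix n n ℂ) (hU : Uᴴ * U = 1) (j : n) : normSq (fun s => U s j) = 1 := by
  have h1 : (Uᴴ * U) j j = 1 := by rw [hU, Matrix.one_apply_eq]
  rw [Matrix.mul_apply] at h1
  have h2 : ((normSq (fun s => U s j) : ℝ) : ℂ) = 1 := by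
    rw [← h1]
    unfold normSq
    push_cast
    refine Finset.sum_congr rfl fun s _ => ?_
    rw [Matrix.conjTranspose_apply]
    have : star (U s j) * U s j = ((‖U s j‖ ^ 2 : ℝ) : ℂ) := by
      rw [← starRingEnd_apply, RCLike.conj_mul]
      norm_cast
    rw [this]
    push_cast
    rfl
  exact_mod_cast h2

/-- sum of the diagonal elements in an orthonormal basis -/
lemma sum_qf (U B : Matrix n n ℂ) (hU' : U * Uᴴ = 1) :
    ∑ j, qf B (fun s => U s j) = B.trace.re := by
  have h1 := Pool.Agent.N134.TP.Col.sum_ip U B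
  have h2 : (Uᴴ * B * U).trace = B.trace := by
    rw [Matrix.trace_mul_comm, ← mul_assoc, hU', one_mul]
  rw [h2] at h1
  rw [← h1, Complex.re_sum]
  rfl

lemma qf_diag_col (U : Matrix n n ℂ) (hU : Uᴴ * U = 1) (m : n → ℝ) (j : n) :
    qf (U * Matrix.diagonal (fun j => ((m j : ℝ) : ℂ)) * Uᴴ) (fun s => U s j) = m j := by
  rw [Pool.Agent.N692.TP.qf_diag]
  have h1 : ∀ i, (Uᴴ *ᵥ fun s => U s j) i = if i = j then 1 else 0 := by
    intro i
    have : (Uᴴ *ᵥ fun s => U s j) i = (Uᴴ * U) i j := by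
      rw [Matrix.mul_apply]
      rfl
    rw [this, hU, Matrix.one_apply]
  simp only [h1]
  rw [Finset.sum_eq_single j]
  · simp
  · intro i _ hij
    rw [if_neg hij]
    simp
  · simp

lemma qf_sub' (A B : Matrix n n ℂ) (v : n → ℂ) : qf (A - B) v = qf A v - qf B v := by
  unfold qf ip
  rw [Matrix.sub_mulVec, ← Complex.sub_re, ← Finset.sum_sub_distrib]
  congr 1
  refine Finset.sum_congr rfl fun s _ => ?_
  rw [Pi.sub_apply, mul_sub]

lemma qf_smul' (A : Matrix n n ℂ) (c : ℝ) (v : n → ℂ) : qf ((c : ℂ) • A) v = c * qf A v := by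
  unfold qf ip
  rw [Matrix.smul_mulVec]
  have : ∑ s, (starRingEnd ℂ) (v s) * ((c : ℂ) • A *ᵥ v) s =
      ((c : ℝ) : ℂ) * ∑ s, (starRingEnd ℂ) (v s) * (A *ᵥ v) s := by
    rw [Finset.mul_sum]
    refine Finset.sum_congr rfl fun s _ => ?_
    simp only [Pi.smul_apply, smul_eq_mul]
    ring
  rw [this, Complex.re_ofReal_mul]

/-- logarithms near one -/
lemma log_one_sub_ge {y θ : ℝ} (h : |y| ≤ θ) (hθ : θ ≤ 1 / 2) :
    -y - 2 * θ ^ 2 ≤ Real.log (1 - y) := by
  obtain ⟨h1, h2⟩ := abs_le.1 h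
  have h3 : 0 < 1 - y := by linarith
  have h4 : y ^ 2 ≤ θ ^ 2 := by
    rw [← sq_abs y]
    exact pow_le_pow_left₀ (abs_nonneg y) h 2
  have key : -y - 2 * y ^ 2 ≤ Real.log (1 - y) := by
    have hlog := Real.one_sub_inv_le_log_of_pos h3
    refine le_trans ?_ hlog
    have h5 : (1 - y)⁻¹ * (1 - y) = 1 := inv_mul_cancel₀ h3.ne'
    have h6 : (1 - (-y - 2 * y ^ 2)) * (1 - y) = 1 + y ^ 2 * (1 - 2 * y) := by ring
    have h7 : 0 ≤ y ^ 2 * (1 - 2 * y) := mul_nonneg (sq_nonneg y) (by linarith)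
    have h8 : (1 - y)⁻¹ ≤ 1 - (-y - 2 * y ^ 2) := by
      refine le_of_mul_le_mul_right ?_ h3
      rw [h5, h6]
      linarith
    linarith
  linarith

lemma aux_div (p E S : ℝ) (hp : p ≠ 0) (hS : S ≠ 0) : p * (E / (p * S) - 1) = E / S - p := by
  field_simp

/-- the Gibbs inequality -/
theorem gibbs [Nonempty n] (U : Matrix n n ℂ) (hU : Uᴴ * U = 1) (hU' : U * Uᴴ = 1) (lam : n → ℝ)
    (A X K : Matrix n n ℂ) (hA : A = U * Matrix.diagonal (fun j => ((lam j : ℝ) : ℂ)) * Uᴴ)
    (hX : X.IsHermitian) (κ θ : ℝ) (M : ℕ) (hθ : θ ≤ 1 / 2) (hl : ∀ j, |κ * lam j| ≤ θ)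
    (hKX : ((2 * κ * M : ℝ) : ℂ) • A = K - X) (Φ : n → ℂ) (hΦ : normSq Φ = 1) :
    ∑ j, (1 - κ * lam j) ^ (2 * M) * qf K (fun s => U s j) ≤
      (qf K Φ - qf X Φ + Real.log (NormedSpace.exp X).trace.re + 4 * M * θ ^ 2) *
        ∑ j, (1 - κ * lam j) ^ (2 * M) := by
  obtain ⟨w, hw⟩ : ∃ w : n → ℝ, w = fun j => (1 - κ * lam j) ^ (2 * M) := ⟨_, rfl⟩
  obtain ⟨k, hk⟩ : ∃ k : n → ℝ, k = fun j => qf K (fun s => U s j) := ⟨_, rfl⟩
  obtain ⟨x, hx⟩ : ∃ x : n → ℝ, x = fun j => qf X (fun s => U s j) := ⟨_, rfl⟩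
  have hl1 : ∀ j, 0 < 1 - κ * lam j := fun j => by
    have := (abs_le.1 (hl j)).2
    linarith
  have hw0 : ∀ j, 0 < w j := fun j => by rw [hw]; exact pow_pos (hl1 j) _
  obtain ⟨W, hW⟩ : ∃ W, W = ∑ j, w j := ⟨_, rfl⟩
  have hW0 : 0 < W := by rw [hW]; exact Finset.sum_pos (fun j _ => hw0 j) Finset.univ_nonempty
  have hkx : ∀ j, k j = x j + 2 * κ * M * lam j := by
    intro j
    have h1 : qf (K - X) (fun s => U s j) = 2 * κ * M * lam j := by
      rw [← hKX, qf_smul', hA, qf_diag_col U hU]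
    rw [qf_sub'] at h1
    rw [hk, hx]
    linarith
  -- the trace of the exponential
  obtain ⟨S, hS⟩ : ∃ S, S = ∑ j, Real.exp (x j) := ⟨_, rfl⟩
  have hS0 : 0 < S := by
    rw [hS]; exact Finset.sum_pos (fun j _ => Real.exp_pos _) Finset.univ_nonempty
  have hST : S ≤ (NormedSpace.exp X).trace.re := by
    rw [hS, ← sum_qf U _ hU']
    refine Finset.sum_le_sum fun j _ => ?_
    rw [hx]
    exact (Pool.Agent.N692.TP.pbMain n X hX _ (col_unit U hU j)).1
  have hlogT : Real.log S ≤ Real.log (NormedSpace.exp X).trace.re := Real.log_le_log hS0 hST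
  -- classical Gibbs
  have hcl : ∑ j, w j / W * (x j - Real.log (w j / W)) ≤ Real.log S := by
    have hp0 : ∀ j, 0 < w j / W := fun j => div_pos (hw0 j) hW0
    have hp1 : ∑ j, w j / W = 1 := by
      rw [← Finset.sum_div, ← hW, div_self hW0.ne']
    have h1 : ∀ j, w j / W * (x j - Real.log (w j / W) - Real.log S) ≤
        Real.exp (x j) / S - w j / W := by
      intro j
      have h2 : x j - Real.log (w j / W) - Real.log S =
          Real.log (Real.exp (x j) / (w j / W * S)) := by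
        rw [Real.log_div (Real.exp_pos _).ne' (mul_pos (hp0 j) hS0).ne',
          Real.log_mul (hp0 j).ne' hS0.ne', Real.log_exp]
        ring
      have h3 := Real.log_le_sub_one_of_pos
        (div_pos (Real.exp_pos (x j)) (mul_pos (hp0 j) hS0))
      rw [h2]
      exact (mul_le_mul_of_nonneg_left h3 (hp0 j).le).trans
        (le_of_eq (aux_div _ _ _ (hp0 j).ne' hS0.ne'))
    have h4 := Finset.sum_le_sum fun j (_ : j ∈ Finset.univ) => h1 j
    rw [Finset.sum_sub_distrib, hp1, ← Finset.sum_div, ← hS, div_self hS0.ne', sub_self] at h4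
    have h5 : ∑ j, w j / W * (x j - Real.log (w j / W) - Real.log S) =
        ∑ j, w j / W * (x j - Real.log (w j / W)) - Real.log S := by
      have : ∀ j, w j / W * (x j - Real.log (w j / W) - Real.log S) =
          w j / W * (x j - Real.log (w j / W)) - w j / W * Real.log S := fun j => by ring
      simp only [this]
      rw [Finset.sum_sub_distrib, ← Finset.sum_mul, hp1, one_mul]
    linarith
  have hterm : ∀ j, w j / W * (k j + Real.log W) ≤ w j / W * (x j - Real.log (w j / W)) := by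
    intro j
    refine mul_le_mul_of_nonneg_left ?_ (div_pos (hw0 j) hW0).le
    rw [Real.log_div (hw0 j).ne' hW0.ne', hkx j]
    have h1 : Real.log (w j) = (2 * M : ℕ) * Real.log (1 - κ * lam j) := by
      rw [hw]; exact Real.log_pow _ _
    have h2 := Real.log_le_sub_one_of_pos (hl1 j)
    have h3 : Real.log (w j) ≤ -(2 * κ * M * lam j) := by
      rw [h1]
      push_cast
      have : (0 : ℝ) ≤ 2 * M := by positivity
      nlinarith [mul_le_mul_of_nonneg_left h2 this]
    linarith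
  have hmain : (∑ j, w j / W * k j) + Real.log W ≤ Real.log S := by
    have h1 := (Finset.sum_le_sum fun j (_ : j ∈ Finset.univ) => hterm j).trans hcl
    have h2 : ∑ j, w j / W * (k j + Real.log W) = (∑ j, w j / W * k j) + Real.log W := by
      simp only [mul_add]
      rw [Finset.sum_add_distrib, ← Finset.sum_mul, ← Finset.sum_div, ← hW, div_self hW0.ne',
        one_mul]
    rwa [h2] at h1
  -- the lower bound for `W`
  have hWlow : -(qf K Φ - qf X Φ) - 4 * M * θ ^ 2 ≤ Real.log W := by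
    obtain ⟨c, hc⟩ : ∃ c : n → ℝ, c = fun j => ‖(Uᴴ *ᵥ Φ) j‖ ^ 2 := ⟨_, rfl⟩
    have hc0 : ∀ j, 0 ≤ c j := fun j => by rw [hc]; positivity
    have hc1 : ∑ j, c j = 1 := by
      have h1 := Pool.Agent.N692.TP.qf_diag U (fun _ => 1) Φ
      have h2 : Matrix.diagonal (fun _ : n => ((1 : ℝ) : ℂ)) = (1 : Matrix n n ℂ) := by
        rw [Complex.ofReal_one, Matrix.diagonal_one]
      rw [h2, mul_one, hU'] at h1
      have h3 : qf (1 : Matrix n n ℂ) Φ = 1 := by
        unfold qf
        rw [Matrix.one_mulVec, Pool.Agent.N134.TP.Col.ip_self, hΦ, Complex.ofReal_re]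
      rw [h3] at h1
      rw [hc]
      simpa using h1.symm
    have hAΦ : qf A Φ = ∑ j, c j * lam j := by
      rw [hA, hc]
      exact Pool.Agent.N692.TP.qf_diag U lam Φ
    have hKXΦ : qf K Φ - qf X Φ = 2 * κ * M * ∑ j, c j * lam j := by
      rw [← qf_sub', ← hKX, qf_smul', hAΦ]
    have h1 : ∀ j, Real.exp (-(2 * κ * M * lam j) - 4 * M * θ ^ 2) ≤ w j := by
      intro j
      have h2 := log_one_sub_ge (hl j) hθ
      have h3 : -(2 * κ * M * lam j) - 4 * M * θ ^ 2 ≤ Real.log (w j) := by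
        have e : Real.log (w j) = (2 * M : ℕ) * Real.log (1 - κ * lam j) := by
          rw [hw]; exact Real.log_pow _ _
        rw [e]
        push_cast
        have : (0 : ℝ) ≤ 2 * M := by positivity
        nlinarith [mul_le_mul_of_nonneg_left h2 this]
      rw [← Real.exp_log (hw0 j)]
      exact Real.exp_le_exp.2 h3
    have h4 := convexOn_exp.map_sum_le (t := Finset.univ) (w := c)
      (p := fun j => -(2 * κ * M * lam j) - 4 * M * θ ^ 2)
      (fun j _ => hc0 j) hc1 (fun j _ => Set.mem_univ _)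
    simp only [smul_eq_mul] at h4
    have h5 : ∑ j, c j * (-(2 * κ * M * lam j) - 4 * M * θ ^ 2) =
        -(qf K Φ - qf X Φ) - 4 * M * θ ^ 2 := by
      rw [hKXΦ]
      simp only [mul_sub]
      rw [Finset.sum_sub_distrib, ← Finset.sum_mul, hc1, one_mul, Finset.mul_sum,
        ← Finset.sum_neg_distrib]
      congr 1
      refine Finset.sum_congr rfl fun j _ => ?_
      ring
    rw [h5] at h4
    have h6 : ∑ j, c j * Real.exp (-(2 * κ * M * lam j) - 4 * M * θ ^ 2) ≤ W := by
      rw [hW]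
      refine Finset.sum_le_sum fun j _ => ?_
      have h7 : c j ≤ 1 := by
        rw [← hc1]
        exact Finset.single_le_sum (fun i _ => hc0 i) (Finset.mem_univ j)
      refine (mul_le_of_le_one_left (Real.exp_pos _).le h7).trans (h1 j)
    rw [← Real.log_exp (-(qf K Φ - qf X Φ) - 4 * M * θ ^ 2)]
    exact Real.log_le_log (Real.exp_pos _) (h4.trans h6)
  have hfin : ∑ j, w j / W * k j ≤
      qf K Φ - qf X Φ + Real.log (NormedSpace.exp X).trace.re + 4 * M * θ ^ 2 := by linarith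
  have e1 : ∑ j, w j / W * k j = (∑ j, w j * k j) / W := by
    rw [Finset.sum_div]
    exact Finset.sum_congr rfl fun j _ => by ring
  rw [e1, div_le_iff₀ hW0] at hfin
  have e2 : ∑ j, (1 - κ * lam j) ^ (2 * M) * qf K (fun s => U s j) = ∑ j, w j * k j := by
    rw [hw, hk]
  have e3 : ∑ j, (1 - κ * lam j) ^ (2 * M) = W := by rw [hW, hw]
  rw [e2, e3]
  exact hfin

end gibbs

end Pool.Agent.U753.FE
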