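import Pool.Agent.U753.FE.ColK
import Pool.Agent.N658.TP.In

/-!
# PEPS with small expectation of an observable, in terms of a free energy
-/

set_option autoImplicit false

open scoped BigOperators Matrix InnerProductSpace
open Finset Pool.Agent.TH235.PP Pool.Agent.TH235.PQ

namespace Pool.Agent.U753.FE

open Pool.Agent.N658.TP Pool.Agent.N674.TP

open scoped Matrix.Norms.L2Operator in
/-- Let `2 b H_g = K - X`. Some PEPS of bond dimension `exp (C (b + log L + log (1 / δ)))` has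
`K`-expectation at most `⟨Φ, (K - X) Φ⟩ + log Tr exp X`, for all unit vectors `Φ`, up to errors. -/
theorem lowG (d R' : ℕ) (J : ℝ) (hd : 2 ≤ d) : ∃ C : ℝ, 0 < C ∧
    ∀ (L : ℕ) [NeZero L], 2 ≤ L → R' + 1 ≤ L → ∀ (β δ : ℝ), 1 ≤ β → 0 < δ → δ ≤ 1 →
    ∀ h : BoxOp d (R' + 1), h.IsHermitian → nJ h ≤ J →
    ∀ X Kob : TorOp d L, X.IsHermitian → ((2 * β : ℝ) : ℂ) • ham h L = Kob - X →
    ∀ B0 : ℝ, ‖Kob‖ ≤ B0 →
    ∃ (D : ℕ) (ψ : (Site L → Fin d) → ℂ),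
      (D : ℝ) ≤ Real.exp (C * (β + Real.log L + Real.log (1 / δ))) ∧ IsPEPS D ψ ∧
      normSq ψ = 1 ∧ ∀ Φ : (Site L → Fin d) → ℂ, normSq Φ = 1 →
        (ip ψ (Kob *ᵥ ψ)).re ≤ (ip Φ (Kob *ᵥ Φ)).re - (ip Φ (X *ᵥ Φ)).re +
          Real.log (NormedSpace.exp X).trace.re + 1 + B0 * δ := by
  have h1 : StmFrob := Pool.Agent.N79.TP.frob
  obtain ⟨J', hJ'⟩ : ∃ J' : ℝ, J' = max J 1 := ⟨_, rfl⟩
  have hJ1 : 1 ≤ J' := by rw [hJ']; exact le_max_right _ _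
  have hJJ : J ≤ J' := by rw [hJ']; exact le_max_left _ _
  obtain ⟨K, hK⟩ : ∃ K : ℕ, K = (R' + 1) ^ 4 := ⟨_, rfl⟩
  have hK1 : 1 ≤ K := by rw [hK]; exact Nat.one_le_pow _ _ (Nat.succ_pos _)
  have hK1' : (1 : ℝ) ≤ K := by exact_mod_cast hK1
  obtain ⟨c1, hc1⟩ : ∃ c1 : ℝ, c1 = 100 * ((K : ℝ) + 1) ^ 2 := ⟨_, rfl⟩
  obtain ⟨c2, hc2⟩ : ∃ c2 : ℝ, c2 = 10 * (K : ℝ) * ((K : ℝ) + 1) ^ 2 := ⟨_, rfl⟩
  have hc10 : 0 ≤ c1 := by rw [hc1]; positivity
  have hc20 : 0 < c2 := by rw [hc2]; positivity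
  obtain ⟨P, hP⟩ : ∃ P : ℝ, P = ((Fintype.card (Lm d (R' + 1)) : ℕ) : ℝ) := ⟨_, rfl⟩
  have hP0 : 0 ≤ P := by rw [hP]; exact Nat.cast_nonneg _
  obtain ⟨Q, hQ⟩ : ∃ Q : ℝ, Q = ((2 * R' + 1 : ℕ) : ℝ) ^ 2 := ⟨_, rfl⟩
  have hQ0 : 0 ≤ Q := by rw [hQ]; positivity
  obtain ⟨v, hv⟩ : ∃ v : ℝ, v = Real.log (48 * J') := ⟨_, rfl⟩
  have hv0 : 0 ≤ v := by rw [hv]; exact Real.log_nonneg (by linarith)
  obtain ⟨C1, hC1⟩ : ∃ C1 : ℝ, C1 = 2 * (c2 * (c1 * (1 + J') + (7 + v)) + 1) + 2 := ⟨_, rfl⟩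
  have hC10 : 0 ≤ C1 := by rw [hC1]; positivity
  have hlogd : 0 < Real.log d := Real.log_pos (by exact_mod_cast hd)
  refine ⟨4 * (P + 1) * C1 * Q + 4 * Real.log d, by positivity, ?_⟩
  intro L _ hL hRL β δ hβ hδ hδ1 h hh hnJ X Kob hX hKX B0 hB0
  have hβ0 : 0 < β := by linarith
  have hL2 : (2 : ℝ) ≤ L := by exact_mod_cast hL
  obtain ⟨lam, hlam⟩ : ∃ lam, lam = Real.log L := ⟨_, rfl⟩
  have hlam0 : 0 ≤ lam := by rw [hlam]; exact Real.log_nonneg (by linarith)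
  obtain ⟨T, hT⟩ : ∃ T, T = Real.log (1 / δ) := ⟨_, rfl⟩
  have hT0 : 0 ≤ T := by
    rw [hT]
    exact Real.log_nonneg (by rw [le_div_iff₀ hδ]; linarith)
  obtain ⟨δ', hδ'⟩ : ∃ δ' : ℝ, δ' = δ / (48 * J') := ⟨_, rfl⟩
  have hδ'0 : 0 < δ' := by rw [hδ']; positivity
  have hδ'2 : δ' ≤ 1 / 2 := by
    rw [hδ', div_le_iff₀ (by positivity)]
    linarith
  have hlogδ : Real.exp (-(v + T)) = δ' := by
    rw [hv, hT, ← Real.log_mul (by positivity) (by positivity), Real.exp_neg,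
      Real.exp_log (by positivity), hδ']
    field_simp
  have hNexp : ((L ^ 2 : ℕ) : ℝ) = Real.exp (2 * lam) := by
    rw [hlam, two_mul, Real.exp_add, Real.exp_log (by linarith)]; push_cast; ring
  obtain ⟨N, hN⟩ : ∃ N : ℝ, N = ((L ^ 2 : ℕ) : ℝ) := ⟨_, rfl⟩
  have hNL : N = (L : ℝ) ^ 2 := by rw [hN]; push_cast; ring
  have hN1 : (1 : ℝ) ≤ N := by
    rw [hN, hNexp]; exact Real.one_le_exp (by linarith)
  have hB0' : 0 ≤ β * J' := by positivity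
  obtain ⟨q, hM1, hM2, hM3⟩ := par_q (β * J') N (v + T) hB0' hN1
  rw [hlogδ] at hM3
  have hM0 : (0 : ℝ) < tm q := by linarith
  obtain ⟨r, hr1, hr2⟩ := par_r c1 c2 (1 + β * J') (2 * lam + (v + T) + 4) hc20 (by positivity)
  obtain ⟨κ, hκ⟩ : ∃ κ : ℝ, κ = β / tm q := ⟨_, rfl⟩
  have hκ0 : 0 < κ := by rw [hκ]; positivity
  have hκM : κ * tm q = β := by rw [hκ]; field_simp
  obtain ⟨y0, hy0⟩ : ∃ y0 : ℝ, y0 = κ * J' := ⟨_, rfl⟩
  have hy00 : 0 ≤ y0 := by rw [hy0]; positivity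
  have hNy : N * y0 ≤ 1 / 80 := by
    have : N * y0 = N * (β * J') / tm q := by rw [hy0, hκ]; ring
    rw [this]; exact hM2
  have hMN : (tm q : ℝ) * (N * y0) ^ 2 ≤ δ' / 16 := by
    have : (tm q : ℝ) * (N * y0) ^ 2 = (N * (β * J')) ^ 2 / tm q := by
      rw [hy0, hκ]; field_simp
    rw [this]; exact hM3
  have hMy : (tm q : ℝ) * y0 = β * J' := by rw [hy0, ← hκM]; ring
  have hrr : N * Real.exp (100 * (K + 1) ^ 2 * (1 + tm q * y0) -
      r / (10 * K * (K + 1) ^ 2)) ≤ δ' / 24 := by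
    rw [hMy, hN, hNexp, ← Real.exp_add]
    have e1 : Real.exp (2 * lam + (100 * (K + 1) ^ 2 * (1 + β * J') -
        r / (10 * K * (K + 1) ^ 2))) ≤ Real.exp (-(v + T) + -4) := by
      apply Real.exp_le_exp.2
      rw [hc1, hc2] at hr1
      linarith
    refine e1.trans ?_
    rw [Real.exp_add, hlogδ, div_eq_mul_one_div]
    exact mul_le_mul_of_nonneg_left exp_four hδ'0.le
  have hy80 : y0 ≤ 1 / 80 := (le_mul_of_one_le_left hy00 hN1).trans hNy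
  -- the matrix
  have : Nonempty (Site L → Fin d) := ⟨fun _ => ⟨0, by omega⟩⟩
  have hH : (ham h L).IsHermitian := ham_herm h hh
  have hHn : ‖ham h L‖ ≤ (L : ℝ) ^ 2 * J' :=
    (norm_ham h).trans (mul_le_mul_of_nonneg_left (hnJ.trans hJJ) (by positivity))
  have heig : ∀ j, |hH.eigenvalues j| ≤ (L : ℝ) ^ 2 * J' := fun j => (eig_abs _ hH j).trans hHn
  have hk0 : ∀ j, |κ * hH.eigenvalues j| ≤ N * y0 := by
    intro j
    rw [abs_mul, abs_of_pos hκ0]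
    refine (mul_le_mul_of_nonneg_left (heig j) hκ0.le).trans (le_of_eq ?_)
    rw [hNL, hy0]; ring
  have hl : ∀ j, 3 / 4 ≤ 1 - κ * hH.eigenvalues j := fun j => by
    have := (abs_le.1 ((hk0 j).trans hNy)).2
    linarith
  obtain ⟨e⟩ : Nonempty (Fin (L ^ 2) ≃ Site L) := by
    rw [← Fintype.card_eq, Fintype.card_fin, card_site]
  obtain ⟨y, hy⟩ : ∃ y : Fin (L ^ 2) → TorOp d L,
    y = fun b => ((-κ : ℝ) : ℂ) • term h (e b) := ⟨_, rfl⟩
  have hyn : ∀ b, ‖y b‖ ≤ y0 := by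
    intro b
    rw [hy]
    simp only []
    rw [norm_smul, Complex.norm_real, Real.norm_eq_abs, abs_neg, abs_of_pos hκ0, hy0]
    exact mul_le_mul_of_nonneg_left ((norm_term h (e b)).trans (hnJ.trans hJJ)) hκ0.le
  have hG : 1 + ∑ b, y b = 1 - (κ : ℂ) • ham h L := by
    rw [hy]
    simp only []
    rw [← Finset.smul_sum]
    have : ∑ b, term h (e b) = ham h L := by
      unfold ham
      exact e.sum_comp (fun u => term h u)
    rw [this]
    push_cast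
    rw [neg_smul, sub_eq_add_neg]
  have hKc : ∀ b, open Classical in (univ.filter fun b' => adjR R' e b b').card ≤ K := by
    intro b
    rw [hK]
    exact adjR_card e b
  have hfr := h1 (Site L → Fin d) (ham h L) hH κ hl (L ^ 2) (adjR R' e) K (adjR_symm e)
    (adjR_irr e) hK1 hKc q r y hG y0 hy00 hy80 hyn (by rw [← hN]; linarith)
    (by
      rw [← hN]
      have : 2 * (tm q : ℝ) * (N * y0) ^ 2 = 2 * (tm q * (N * y0) ^ 2) := by ring
      rw [this]; linarith)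
    (by rw [← hN]; linarith)
  rw [← hN] at hfr
  obtain ⟨A1, hA1⟩ : ∃ A1 : TorOp d L, A1 = KA (adjR R' e) q y r := ⟨_, rfl⟩
  rw [← hA1] at hfr
  have hl0 : ∀ j, 0 < 1 - κ * hH.eigenvalues j := fun j => by linarith [hl j]
  have hS0 : 0 < ∑ j, (1 - κ * hH.eigenvalues j) ^ (2 * tm q) :=
    Finset.sum_pos (fun j _ => pow_pos (hl0 j) _) Finset.univ_nonempty
  have hfr2 : fr2 (A1 - (1 - (κ : ℂ) • ham h L) ^ tm q) ≤
      δ' ^ 2 * ∑ j, (1 - κ * hH.eigenvalues j) ^ (2 * tm q) := by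
    refine hfr.trans (mul_le_mul_of_nonneg_right ?_ hS0.le)
    have hn1 : 0 ≤ N * Real.exp (100 * (K + 1) ^ 2 * (1 + tm q * y0) -
      r / (10 * K * (K + 1) ^ 2)) := by positivity
    have hn2 : 0 ≤ (tm q : ℝ) * (N * y0) ^ 2 := by positivity
    refine pow_le_pow_left₀ (by linarith) (by linarith) 2
  obtain ⟨U, hU, hU', hAd, hdec⟩ := Pool.Agent.N134.TP.Col.spec_dec' (ham h L) hH
  obtain ⟨E, hE⟩ : ∃ E : ℝ, E = (∑ j, (1 - κ * hH.eigenvalues j) ^ (2 * tm q) *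
    qf Kob (fun s => U s j)) / ∑ j, (1 - κ * hH.eigenvalues j) ^ (2 * tm q) := ⟨_, rfl⟩
  have hE' : ∑ j, (1 - κ * hH.eigenvalues j) ^ (2 * tm q) * qf Kob (fun s => U s j) =
      E * ∑ j, (1 - κ * hH.eigenvalues j) ^ (2 * tm q) := by
    rw [hE, div_mul_cancel₀ _ hS0.ne']
  obtain ⟨t, ht0, ht⟩ := colK U hU hU' hH.eigenvalues (ham h L) Kob κ (hdec κ) hl0 B0 δ' (tm q) A1
    hB0 hδ'0.le hδ'2 hfr2 E hE'
  -- the Gibbs inequality
  have hgib : ∀ Φ : (Site L → Fin d) → ℂ, normSq Φ = 1 →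
      E ≤ (ip Φ (Kob *ᵥ Φ)).re - (ip Φ (X *ᵥ Φ)).re +
        Real.log (NormedSpace.exp X).trace.re + 1 / 2 := by
    intro Φ hΦ
    have hKX' : ((2 * κ * tm q : ℝ) : ℂ) • ham h L = Kob - X := by
      rw [← hKX]
      congr 2
      rw [← hκM]; ring
    have h5 := gibbs U hU hU' hH.eigenvalues (ham h L) X Kob hAd hX κ (N * y0) (tm q)
      (by linarith) hk0 hKX' Φ hΦ
    rw [hE'] at h5
    have h6 := le_of_mul_le_mul_right h5 hS0
    have h7 : 4 * (tm q : ℝ) * (N * y0) ^ 2 ≤ 1 / 2 := by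
      have : 4 * (tm q : ℝ) * (N * y0) ^ 2 = 4 * (tm q * (N * y0) ^ 2) := by ring
      rw [this]
      linarith
    have h8 : qf Kob Φ = (ip Φ (Kob *ᵥ Φ)).re := rfl
    have h9 : qf X Φ = (ip Φ (X *ᵥ Φ)).re := rfl
    rw [← h8, ← h9]
    linarith
  obtain ⟨A, hA⟩ := peps_KA reg hRL (K := Fin 1)
    (fun x i _ _ _ _ => if i = t x then (1 : ℂ) else 0) ((-κ : ℝ) : ℂ) h e q r
  rw [basis_contract] at hA
  have hcol : A1 *ᵥ Pi.single t 1 = fun s => A1 s t := by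
    funext s
    rw [Matrix.mulVec_single_one]
    rfl
  have hx : (fun s => A1 s t) = contract A := by
    rw [← hcol, hA1, hy]
    exact hA
  rw [hx] at ht0 ht
  have hpeps : IsPEPS (Fintype.card (Fin 1 × (Fin (2 * R' + 1) × Fin (2 * R' + 1) →
      LabT d (R' + 1) q r))) (contract A) := isPEPS_contract A
  have hnr : 0 < nr (contract A) := by
    rcases (nr_nonneg (contract A)).lt_or_eq with h5 | h5
    · exact h5
    · exfalso
      have := nr_sq (contract A)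
      rw [← h5] at this
      rw [← this] at ht0
      simp at ht0
  have hnn : ‖((nr (contract A))⁻¹ : ℂ)‖ = (nr (contract A))⁻¹ := by
    rw [norm_inv, Complex.norm_real, Real.norm_eq_abs, abs_of_pos hnr]
  refine ⟨_, ((nr (contract A))⁻¹ : ℂ) • contract A, ?_, hpeps.smul _, ?_, ?_⟩
  · -- the bond dimension
    have hcardb := card_bdK count (d := d) (R' := R') 1 q r
    rw [Nat.cast_one, one_mul, ← hP, ← hQ] at hcardb
    refine hcardb.trans (Real.exp_le_exp.2 ?_)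
    rw [← hlam, ← hT]
    exact num_bd β lam T v J' c1 c2 P Q C1 r (Real.log d) hβ hlam0 hT0 hv0 hJ1 hc10 hc20 hP0 hQ0
      hlogd.le hr2 hC1
  · rw [← nr_sq, nr_smul, hnn, inv_mul_cancel₀ hnr.ne', one_pow]
  · intro Φ hΦ
    have hEΦ := hgib Φ hΦ
    rw [Matrix.mulVec_smul, ip_smul_right, ip_smul_left]
    have e5 : ((nr (contract A))⁻¹ : ℂ) * ((starRingEnd ℂ) ((nr (contract A))⁻¹ : ℂ) *
        ip (contract A) (Kob *ᵥ contract A)) =
        ((((nr (contract A)) ^ 2)⁻¹ : ℝ) : ℂ) * ip (contract A) (Kob *ᵥ contract A) := by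
      rw [map_inv₀, Complex.conj_ofReal]
      push_cast
      ring
    rw [e5, Complex.re_ofReal_mul]
    rw [← nr_sq] at ht
    have e6 : ((nr (contract A)) ^ 2)⁻¹ * (ip (contract A) (Kob *ᵥ contract A)).re ≤
        E + 24 * B0 * δ' := by
      rw [inv_mul_le_iff₀ (by positivity)]
      exact ht.trans (le_of_eq (mul_comm _ _))
    refine e6.trans ?_
    have hB00 : 0 ≤ B0 := (norm_nonneg _).trans hB0
    have e7 : 24 * B0 * δ' ≤ B0 * δ := by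
      rw [hδ']
      have : 24 * B0 * (δ / (48 * J')) = B0 * δ * (1 / (2 * J')) := by
        field_simp
        ring
      rw [this]
      refine mul_le_of_le_one_right (by positivity) ?_
      rw [div_le_one (by positivity)]
      linarith
    linarith

end Pool.Agent.U753.FE
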