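import Pool.Agent.U753.FE.LowG
import Pool.Agent.U753.FE.Ext
import Pool.Agent.N712.TP.ReachF
import Pool.Agent.N152.TP.CmpF

/-!
# `Reach` in terms of the free energy, with bond dimension `exp (C (β + κ / ε + log m))`
-/

set_option autoImplicit false

open scoped BigOperators ComplexConjugate Classical InnerProductSpace Matrix ComplexOrder
open scoped Matrix.Norms.L2Operator

noncomputable section

namespace Pool.Agent.U753.FE

open Pool.Agent.N658.TP Pool.Agent.Y738.PE Pool.Agent.TH235 Pool.Agent.N163.TP Pool.Agent.N79.TP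
  Pool.Agent.N712.TP

/-- `Reach` with a bond dimension controlled by the free energy of an interaction `h` at inverse
temperature `β`; the exponent is `β + κ / ε + log m`. -/
def StmReachG : Prop := ∀ (d r R' : ℕ) (J : ℝ), 2 ≤ d → 0 < r → ∃ C : ℝ, 0 < C ∧
  ∀ (n L : ℕ) [NeZero L] [NeZero (2 * n)], 2 * n ≤ L →
  ∀ ε : ℝ, 0 < ε → ε ≤ 1 → ∀ β : ℝ, 0 ≤ β → C * (1 + β) / ε ≤ ((2 * n : ℕ) : ℝ) →
  ∀ Ψ : Conf d L → ℂ, nrm Ψ = 1 →
  (∀ (r : ℕ) (v : Site L) (B : BConf d r → BConf d r → ℂ), expec Ψ v B = expec Ψ 0 B) →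
  ∀ h : Pool.Agent.TH235.PP.BoxOp d (R' + 1), h.IsHermitian → Pool.Agent.TH235.PP.nJ h ≤ J →
  ∀ κ : ℝ, 0 ≤ κ →
  Real.log (NormedSpace.exp (((-β : ℝ) : ℂ) • Pool.Agent.TH235.PP.ham h (2 * n))).trace.re +
    β * (((2 * n : ℕ) : ℝ) ^ 2 * (expec Ψ 0 (fun x y => h x y)).re) ≤ κ * ((2 * n : ℕ) : ℝ) ^ 2 →
  ∃ f : ℕ, (f : ℝ) ≤ Real.exp (C * (1 + β + κ / ε + Real.log ((2 * n : ℕ) : ℝ))) ∧
    Reach d r (2 * n) f (fun B => expec Ψ 0 B) (C * ε)

/-- the numbers of the energy estimate -/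
theorem num_enG (n m β κ ε t r R' J' cr C E0 Eψ Eφ Eh HH lg : ℝ) (hm : m = 2 * n)
    (hm1 : 1 ≤ m) (hβ : 0 ≤ β) (hκ : 0 ≤ κ) (hε : 0 < ε) (ht : t = 1 + κ / ε)
    (hR : 0 ≤ R') (hJ' : 1 ≤ J') (hcr : 0 ≤ cr)
    (hC4 : 4 + cr ≤ C) (hCr : 6 * r ≤ C) (hCA : 6 * R' * J' + 1 ≤ C)
    (hCm : C * (1 + β) / ε ≤ m) (hE : Eφ ≤ m ^ 2 * E0 + 12 * r * n)
    (hH : HH ≤ m ^ 2 * Eh + 12 * R' * n * J') (hlg : lg + β * (m ^ 2 * Eh) ≤ κ * m ^ 2)
    (hP : t * Eψ ≤ t * Eφ + β * HH + lg + 1 + t * (m ^ 2 * cr) * ε) :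
    Eψ ≤ (E0 + C * ε) * m ^ 2 := by
  have hmε : C * (1 + β) ≤ m * ε := by rwa [div_le_iff₀ hε] at hCm
  have hm0 : 0 < m := by linarith
  have hC0 : 0 < C := by linarith
  have hCβ : C * (1 + β) * m ≤ ε * m ^ 2 := by
    have := mul_le_mul_of_nonneg_right hmε hm0.le
    nlinarith
  have hCm2 : C * m ≤ ε * m ^ 2 := by
    have : C * m ≤ C * (1 + β) * m := by
      have h0 : 0 ≤ C * m * β := by positivity
      nlinarith
    linarith
  have hκε : 0 ≤ κ / ε := by positivity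
  have ht1 : 1 ≤ t := by rw [ht]; linarith
  have ht0 : 0 < t := by linarith
  have hεm : 0 ≤ ε * m ^ 2 := by positivity
  have h1 : β * HH ≤ β * (m ^ 2 * Eh + 12 * R' * n * J') := mul_le_mul_of_nonneg_left hH hβ
  have h2 : β * HH + lg + 1 ≤ κ * m ^ 2 + C * (1 + β) * m := by
    have e : β * (m ^ 2 * Eh + 12 * R' * n * J') = β * (m ^ 2 * Eh) + 6 * R' * J' * m * β := by
      rw [hm]; ring
    have h3 : 6 * R' * J' * m * β + 1 ≤ (6 * R' * J' + 1) * ((1 + β) * m) := by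
      have a1 : 0 ≤ R' * J' * m := by positivity
      have a2 : 0 ≤ β * m := by positivity
      nlinarith
    have h4 : (6 * R' * J' + 1) * ((1 + β) * m) ≤ C * ((1 + β) * m) :=
      mul_le_mul_of_nonneg_right hCA (by positivity)
    linarith
  have h5 : κ * m ^ 2 ≤ t * (ε * m ^ 2) := by
    have h6 : κ * m ^ 2 = (κ / ε) * (ε * m ^ 2) := by field_simp
    rw [h6, ht]
    nlinarith
  have h7 : C * (1 + β) * m ≤ t * (ε * m ^ 2) := by
    refine hCβ.trans ?_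
    nlinarith
  have h8 : t * Eφ ≤ t * (m ^ 2 * E0 + 12 * r * n) := mul_le_mul_of_nonneg_left hE ht0.le
  have h9 : 12 * r * n ≤ ε * m ^ 2 := by
    have e : 12 * r * n = 6 * r * m := by rw [hm]; ring
    rw [e]
    have := mul_le_mul_of_nonneg_right hCr hm0.le
    linarith
  have h10 : t * Eψ ≤ t * (m ^ 2 * E0 + 3 * (ε * m ^ 2) + m ^ 2 * cr * ε) := by
    have h11 : t * (12 * r * n) ≤ t * (ε * m ^ 2) := mul_le_mul_of_nonneg_left h9 ht0.le
    nlinarith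
  have h12 := le_of_mul_le_mul_left h10 ht0
  refine h12.trans ?_
  have h13 : 3 * (ε * m ^ 2) + m ^ 2 * cr * ε ≤ C * (ε * m ^ 2) := by
    have : (3 + cr) * (ε * m ^ 2) ≤ C * (ε * m ^ 2) :=
      mul_le_mul_of_nonneg_right (by linarith) hεm
    nlinarith
  nlinarith

theorem reachG : StmReachG := by
  intro d r R' J hd hr
  obtain ⟨r', rfl⟩ : ∃ r', r = r' + 1 := ⟨r - 1, by omega⟩
  obtain ⟨S, hS⟩ : ∃ S : ℕ, S = max R' r' := ⟨_, rfl⟩
  have hRS : R' + 1 ≤ S + 1 := by rw [hS]; have := le_max_left R' r'; omega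
  have hrS : r' + 1 ≤ S + 1 := by rw [hS]; have := le_max_right R' r'; omega
  obtain ⟨J', hJ'⟩ : ∃ J' : ℝ, J' = max J 1 := ⟨_, rfl⟩
  have hJ'1 : 1 ≤ J' := by rw [hJ']; exact le_max_right _ _
  have hJJ' : J ≤ J' := by rw [hJ']; exact le_max_left _ _
  obtain ⟨cS, hcS⟩ : ∃ cS : ℝ, cS = ((Fintype.card (Fin (S + 1) × Fin (S + 1) → Fin d) : ℕ) : ℝ) *
    ((Fintype.card (Fin (S + 1) × Fin (S + 1) → Fin d) : ℕ) : ℝ) := ⟨_, rfl⟩
  have hcS0 : 0 ≤ cS := by rw [hcS]; positivity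
  obtain ⟨cr, hcr⟩ : ∃ cr : ℝ, cr = ((Fintype.card (BConf d (r' + 1)) : ℕ) : ℝ) *
    ((Fintype.card (BConf d (r' + 1)) : ℕ) : ℝ) := ⟨_, rfl⟩
  have hcr0 : 0 ≤ cr := by rw [hcr]; positivity
  obtain ⟨C0, hC0, HL⟩ := lowG d S (cS * J' + cS * cr) hd
  obtain ⟨C, hC⟩ : ∃ C : ℝ, C = 4 + cr + 6 * ((r' + 1 : ℕ) : ℝ) + 6 * ((R' + 1 : ℕ) : ℝ) * J' +
    1 + 2 * C0 := ⟨_, rfl⟩
  have e1 : 0 ≤ 6 * ((r' + 1 : ℕ) : ℝ) := by positivity
  have e2 : 0 ≤ 6 * ((R' + 1 : ℕ) : ℝ) * J' := by positivity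
  have e2' : 6 * ((R' + 1 : ℕ) : ℝ) ≤ 6 * ((R' + 1 : ℕ) : ℝ) * J' :=
    le_mul_of_one_le_right (by positivity) hJ'1
  have hCpos : 0 < C := by rw [hC]; linarith
  have hC4 : 4 ≤ C := by rw [hC]; linarith
  refine ⟨C, hCpos, ?_⟩
  intro n L _ _ hnL ε hε hε1 β hβ hCm Ψ hΨ hTI h hh hhJ κ hκ hfree
  have hn : 0 < n := by
    have := NeZero.pos (2 * n)
    omega
  have hCβ : C ≤ C * (1 + β) / ε := by
    rw [le_div_iff₀ hε]
    nlinarith
  have hrn : r' + 1 ≤ n := by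
    have g1 : 6 * ((r' + 1 : ℕ) : ℝ) ≤ ((2 * n : ℕ) : ℝ) := by
      have : 6 * ((r' + 1 : ℕ) : ℝ) ≤ C := by rw [hC]; linarith
      linarith
    have g2 : 6 * (r' + 1) ≤ 2 * n := by exact_mod_cast g1
    omega
  have hRn : R' + 1 ≤ n := by
    have g1 : 6 * ((R' + 1 : ℕ) : ℝ) ≤ ((2 * n : ℕ) : ℝ) := by
      have : 6 * ((R' + 1 : ℕ) : ℝ) ≤ C := by rw [hC]; linarith
      linarith
    have g2 : 6 * (R' + 1) ≤ 2 * n := by exact_mod_cast g1
    omega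
  have hrm : r' + 1 ≤ 2 * n := by omega
  have hRm : R' + 1 ≤ 2 * n := by omega
  have hSm : S + 1 ≤ 2 * n := by
    rw [hS]
    rcases le_total R' r' with h5 | h5
    · rw [max_eq_right h5]; exact hrm
    · rw [max_eq_left h5]; exact hRm
  have hm2 : 2 ≤ 2 * n := by omega
  obtain ⟨φ, hφ, hφE⟩ := Pool.Agent.N152.TP.cmpF d n L hn hnL Ψ hΨ hTI
  have hH : qf (PP.ham h (2 * n)) φ ≤ ((2 * n : ℕ) : ℝ) ^ 2 * (expec Ψ 0 (fun x y => h x y)).re +
      12 * ((R' + 1 : ℕ) : ℝ) * n * J' := by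
    have g4 : qf (PP.ham h (2 * n)) φ = (enS φ (fun x y => h x y)).re := by
      unfold qf
      rw [← ip_ham hRm (fun x y => h x y)]
      rfl
    have hJ0' : (0 : ℝ) < J' := by linarith
    have hct : Contr (fun x y => ((J'⁻¹ : ℝ) : ℂ) * h x y) := by
      apply contr_of_sum
      have : ∑ p, ∑ q, ‖((J'⁻¹ : ℝ) : ℂ) * h p q‖ = J'⁻¹ * PP.nJ h := by
        unfold PP.nJ
        rw [Finset.mul_sum]
        refine Finset.sum_congr rfl fun p _ => ?_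
        rw [Finset.mul_sum]
        refine Finset.sum_congr rfl fun q _ => ?_
        rw [norm_mul, Complex.norm_real, Real.norm_eq_abs, abs_of_pos (inv_pos.2 hJ0')]
      rw [this, inv_mul_le_iff₀ hJ0']
      linarith
    have g5 : ‖((J'⁻¹ : ℝ) : ℂ) * enS φ (fun x y => h x y) - ((2 * n : ℕ) : ℂ) ^ 2 *
        (((J'⁻¹ : ℝ) : ℂ) * expec Ψ 0 (fun x y => h x y))‖ ≤ 12 * ((R' + 1 : ℕ) : ℝ) * n := by
      rw [← enS_smul φ _ (fun x y => h x y), ← expec_smul Ψ 0 _ (fun x y => h x y)]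
      exact hφE (R' + 1) (Nat.succ_pos _) hRn _ hct
    have g6 : ((J'⁻¹ : ℝ) : ℂ) * enS φ (fun x y => h x y) - ((2 * n : ℕ) : ℂ) ^ 2 *
        (((J'⁻¹ : ℝ) : ℂ) * expec Ψ 0 (fun x y => h x y)) =
        ((J'⁻¹ : ℝ) : ℂ) * (enS φ (fun x y => h x y) - ((2 * n : ℕ) : ℂ) ^ 2 *
          expec Ψ 0 (fun x y => h x y)) := by ring
    rw [g6, norm_mul, Complex.norm_real, Real.norm_eq_abs, abs_of_pos (inv_pos.2 hJ0'),
      inv_mul_le_iff₀ hJ0'] at g5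
    have g7 := (Complex.abs_re_le_norm _).trans g5
    rw [Complex.sub_re] at g7
    have g8 : (((2 * n : ℕ) : ℂ) ^ 2 * expec Ψ 0 (fun x y => h x y)).re =
        ((2 * n : ℕ) : ℝ) ^ 2 * (expec Ψ 0 (fun x y => h x y)).re := by
      have : (((2 * n : ℕ) : ℂ) ^ 2) = ((((2 * n : ℕ) : ℝ) ^ 2 : ℝ) : ℂ) := by
        push_cast; ring
      rw [this, Complex.re_ofReal_mul]
    rw [g8] at g7
    have g9 := (abs_le.1 g7).2
    rw [g4]
    push_cast at g9 ⊢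
    linarith
  -- the parameters
  obtain ⟨t, ht⟩ : ∃ t : ℝ, t = 1 + κ / ε := ⟨_, rfl⟩
  have hκε : 0 ≤ κ / ε := by positivity
  have ht1 : 1 ≤ t := by rw [ht]; linarith
  obtain ⟨b, hb⟩ : ∃ b : ℝ, b = 1 + β + t := ⟨_, rfl⟩
  have hb1 : 1 ≤ b := by rw [hb]; linarith
  have hb0 : 0 < b := by linarith
  obtain ⟨m, hm⟩ : ∃ m : ℝ, m = ((2 * n : ℕ) : ℝ) := ⟨_, rfl⟩
  have hm1 : 1 ≤ m := by rw [hm]; exact_mod_cast (by omega : 1 ≤ 2 * n)
  have hlm : 0 ≤ Real.log m := Real.log_nonneg hm1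
  refine ⟨⌊Real.exp (C * (1 + β + κ / ε + Real.log ((2 * n : ℕ) : ℝ)))⌋₊,
    Nat.floor_le (Real.exp_pos _).le, ?_⟩
  intro B hB hBc
  have hherm : (Matrix.of B : PP.BoxOp d (r' + 1)).IsHermitian := by
    refine Matrix.IsHermitian.ext fun i j => ?_
    show star (B j i) = B i j
    rw [hB i j]
    simp
  have hJB : PP.nJ (Matrix.of B : PP.BoxOp d (r' + 1)) ≤ cr := by
    unfold PP.nJ
    rw [hcr]
    calc ∑ p : BConf d (r' + 1), ∑ q : BConf d (r' + 1), ‖Matrix.of B p q‖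
        ≤ ∑ _p : BConf d (r' + 1), ∑ _q : BConf d (r' + 1), (1 : ℝ) :=
          Finset.sum_le_sum fun p _ => Finset.sum_le_sum fun q _ => contr_entry B hBc p q
      _ = _ := by
        simp only [Finset.sum_const, Finset.card_univ, nsmul_eq_mul, mul_one]
  -- the common interaction
  obtain ⟨g, hg⟩ : ∃ g : PP.BoxOp d (S + 1), g = ((β / (2 * b) : ℝ) : ℂ) • ext hRS h +
    ((t / (2 * b) : ℝ) : ℂ) • ext hrS (Matrix.of B) := ⟨_, rfl⟩
  have hgh : g.IsHermitian := by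
    rw [hg]
    exact (herm_smul _ (ext_herm hRS h hh) _).add (herm_smul _ (ext_herm hrS _ hherm) _)
  have hgJ : PP.nJ g ≤ cS * J' + cS * cr := by
    rw [hg]
    refine (nJ_add _ _).trans ?_
    rw [nJ_smul, nJ_smul]
    have k1 : PP.nJ (ext hRS h) ≤ cS * J' := by
      refine (nJ_ext hRS h).trans ?_
      rw [← hcS]
      exact mul_le_mul_of_nonneg_left (hhJ.trans hJJ') hcS0
    have k2 : PP.nJ (ext hrS (Matrix.of B : PP.BoxOp d (r' + 1))) ≤ cS * cr := by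
      refine (nJ_ext hrS _).trans ?_
      rw [← hcS]
      exact mul_le_mul_of_nonneg_left hJB hcS0
    have k3 : |β / (2 * b)| ≤ 1 := by
      rw [abs_of_nonneg (by positivity), div_le_one (by positivity)]
      rw [hb]; linarith
    have k4 : |t / (2 * b)| ≤ 1 := by
      rw [abs_of_nonneg (by positivity), div_le_one (by positivity)]
      rw [hb]; linarith
    have k5 := mul_le_of_le_one_left (PP.nJ_nonneg (ext hRS h)) k3
    have k6 := mul_le_of_le_one_left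
      (PP.nJ_nonneg (ext hrS (Matrix.of B : PP.BoxOp d (r' + 1)))) k4
    linarith
  have hKX : ((2 * b : ℝ) : ℂ) • PP.ham g (2 * n) =
      ((t : ℝ) : ℂ) • PP.ham (Matrix.of B : PP.BoxOp d (r' + 1)) (2 * n) -
        ((-β : ℝ) : ℂ) • PP.ham h (2 * n) := by
    rw [hg, ham_add, Pool.Agent.N712.TP.ham_smul, Pool.Agent.N712.TP.ham_smul, ham_ext hRS hSm, ham_ext hrS hSm, smul_add, smul_smul,
      smul_smul]
    have k1 : ((2 * b : ℝ) : ℂ) * ((β / (2 * b) : ℝ) : ℂ) = ((β : ℝ) : ℂ) := by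
      rw [← Complex.ofReal_mul]
      congr 1
      field_simp
    have k2 : ((2 * b : ℝ) : ℂ) * ((t / (2 * b) : ℝ) : ℂ) = ((t : ℝ) : ℂ) := by
      rw [← Complex.ofReal_mul]
      congr 1
      field_simp
    rw [k1, k2, Complex.ofReal_neg, neg_smul, sub_neg_eq_add, add_comm]
  have hXh : (((-β : ℝ) : ℂ) • PP.ham h (2 * n)).IsHermitian := herm_smul _ (PP.ham_herm _ hh) _
  have hKn : ‖((t : ℝ) : ℂ) • PP.ham (Matrix.of B : PP.BoxOp d (r' + 1)) (2 * n)‖ ≤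
      t * (((2 * n : ℕ) : ℝ) ^ 2 * cr) := by
    rw [norm_smul, Complex.norm_real, Real.norm_eq_abs, abs_of_nonneg (by linarith)]
    refine mul_le_mul_of_nonneg_left ?_ (by linarith)
    exact (PP.norm_ham _).trans (mul_le_mul_of_nonneg_left hJB (by positivity))
  obtain ⟨D, ψ, hD, hψ, hψ1, hψE⟩ := HL (2 * n) hm2 hSm b ε hb1 hε hε1 g hgh hgJ _ _ hXh hKX _ hKn
  have hDf : D ≤ ⌊Real.exp (C * (1 + β + κ / ε + Real.log ((2 * n : ℕ) : ℝ)))⌋₊ := by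
    refine Nat.le_floor (hD.trans (Real.exp_le_exp.2 ?_))
    rw [← hm]
    have hlε : Real.log (1 / ε) ≤ Real.log m := by
      refine Real.log_le_log (by positivity) ?_
      rw [hm]
      refine le_trans ?_ hCm
      refine div_le_div_of_nonneg_right ?_ hε.le
      nlinarith
    have k1 : b + Real.log m + Real.log (1 / ε) ≤ 2 * (1 + β + κ / ε + Real.log m) := by
      rw [hb, ht]
      linarith
    have k2 : 0 ≤ 1 + β + κ / ε + Real.log m := by linarith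
    calc C0 * (b + Real.log m + Real.log (1 / ε)) ≤ C0 * (2 * (1 + β + κ / ε + Real.log m)) :=
          mul_le_mul_of_nonneg_left k1 hC0.le
      _ = (2 * C0) * (1 + β + κ / ε + Real.log m) := by ring
      _ ≤ C * (1 + β + κ / ε + Real.log m) :=
          mul_le_mul_of_nonneg_right (by rw [hC]; linarith) k2
  obtain ⟨Ac, hAc⟩ := hψ
  refine ⟨padT _ Ac, ?_, ?_⟩
  · rw [pepsN_pad hDf, ← hAc]
    exact hψ1
  · rw [pepsN_pad hDf, ← hAc, ← ip_ham hrm B]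
    have hmain := hψE φ hφ
    have g0 : ∀ v : Conf d (2 * n) → ℂ,
        (PP.ip v ((((t : ℝ) : ℂ) • PP.ham (Matrix.of B : PP.BoxOp d (r' + 1)) (2 * n)) *ᵥ v)).re =
        t * (PP.ip v (PP.ham (Matrix.of B : PP.BoxOp d (r' + 1)) (2 * n) *ᵥ v)).re :=
      fun v => qf_smulA _ t v
    have g0' : (PP.ip φ ((((-β : ℝ) : ℂ) • PP.ham h (2 * n)) *ᵥ φ)).re =
        -β * qf (PP.ham h (2 * n)) φ := qf_smulA _ (-β) φ
    rw [g0, g0, g0'] at hmain
    have g3 : (PP.ip φ (PP.ham (Matrix.of B : PP.BoxOp d (r' + 1)) (2 * n) *ᵥ φ)).re ≤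
        ((2 * n : ℕ) : ℝ) ^ 2 * (expec Ψ 0 B).re + 12 * ((r' + 1 : ℕ) : ℝ) * (n : ℝ) := by
      have g4 : (PP.ip φ (PP.ham (Matrix.of B : PP.BoxOp d (r' + 1)) (2 * n) *ᵥ φ)).re =
          (enS φ B).re := by
        rw [ip_ham hrm B]
      have g5 := (Complex.abs_re_le_norm _).trans (hφE (r' + 1) (Nat.succ_pos _) hrn B hBc)
      rw [Complex.sub_re] at g5
      have g6 : (((2 * n : ℕ) : ℂ) ^ 2 * expec Ψ 0 B).re =
          ((2 * n : ℕ) : ℝ) ^ 2 * (expec Ψ 0 B).re := by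
        have : (((2 * n : ℕ) : ℂ) ^ 2) = ((((2 * n : ℕ) : ℝ) ^ 2 : ℝ) : ℂ) := by
          push_cast; ring
        rw [this, Complex.re_ofReal_mul]
      rw [g6] at g5
      have g7 := (abs_le.1 g5).2
      rw [g4]
      push_cast at g7 ⊢
      linarith
    refine num_enG (n : ℝ) ((2 * n : ℕ) : ℝ) β κ ε t ((r' + 1 : ℕ) : ℝ) ((R' + 1 : ℕ) : ℝ) J' cr C
      (expec Ψ 0 B).re _ _ (expec Ψ 0 (fun x y => h x y)).re (qf (PP.ham h (2 * n)) φ)
      (Real.log (NormedSpace.exp (((-β : ℝ) : ℂ) • PP.ham h (2 * n))).trace.re)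
      (by push_cast; ring) (by exact_mod_cast (by omega : 1 ≤ 2 * n)) hβ hκ hε ht
      (by positivity) hJ'1 hcr0 (by rw [hC]; linarith) (by rw [hC]; linarith)
      (by rw [hC]; linarith) hCm g3 hH hfree ?_
    linarith

end Pool.Agent.U753.FE
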